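import Pool.Agent.Lib.MP_efe47c_gt.Man

/-! The trick of Morse, and the reduction to the swindle. -/

namespace Pool.Agent.Lib.MP_efe47c_gt
open Set Filter Topology Metric Function
open scoped ContDiff Manifold

noncomputable section

theorem norm_lt_gau {p : H} {ε : ℝ} (h0 : 0 < ε) (h1 : p.2.2 ^ 2 < ε ^ 2) (h2 : rho p < ε ^ 2) :
    ‖p‖ < ε := by
  have a1 := Complex.normSq_nonneg p.1
  have a2 := Complex.normSq_nonneg p.2.1
  rw [Prod.norm_def, Prod.norm_def, max_lt_iff, max_lt_iff]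
  refine ⟨lt_of_pow_lt_pow_left₀ 2 h0.le ?_, lt_of_pow_lt_pow_left₀ 2 h0.le ?_,
    lt_of_pow_lt_pow_left₀ 2 h0.le ?_⟩
  · rw [← Complex.normSq_eq_norm_sq]; unfold rho at h2; linarith
  · rw [← Complex.normSq_eq_norm_sq]; unfold rho at h2; linarith
  · rw [Real.norm_eq_abs, sq_abs]; exact h1

theorem norm_lt_small {p : H} {ε : ℝ} (h0 : 0 < ε) (h1 : ε ≤ 1) (h : gau p < ε ^ 4) : ‖p‖ < ε := by
  have e : ε ^ 4 = (ε ^ 2) ^ 2 := by ring
  have e2 : ε ^ 2 ≤ 1 := pow_le_one₀ h0.le h1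
  unfold gau at h
  refine norm_lt_gau h0 (by nlinarith [sq_nonneg (rho p), sq_nonneg ε]) ?_
  exact lt_of_pow_lt_pow_left₀ 2 (sq_nonneg ε) (by nlinarith [sq_nonneg p.2.2])

theorem gau_basis {s : Set H} (hs : s ∈ 𝓝 (0 : H)) : ∃ η, 0 < η ∧ η ≤ 1 ∧ ∀ p, gau p ≤ η → p ∈ s := by
  obtain ⟨ε, e0, he⟩ := Metric.mem_nhds_iff.1 hs
  have m0 : 0 < min ε 1 := lt_min e0 one_pos
  have m1 : min ε 1 ^ 4 ≤ 1 := pow_le_one₀ m0.le (min_le_right _ _)
  have m2 : 0 < min ε 1 ^ 4 := pow_pos m0 4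
  refine ⟨min ε 1 ^ 4 / 2, by linarith, by linarith, fun p hp => he ?_⟩
  rw [mem_ball_zero_iff]
  exact (norm_lt_small m0 (min_le_right _ _) (by linarith)).trans_le (min_le_left _ _)

theorem cpt_gau (R : ℝ) : IsCompact {p : H | gau p ≤ R} := by
  refine isCompact_of_isClosed_isBounded (isClosed_le cont_gau continuous_const) ?_
  refine (isBounded_ball (x := (0 : H)) (r := |R| + 2)).subset fun p hp => ?_
  have h : rho p ^ 2 + p.2.2 ^ 2 ≤ R := hp
  have := le_abs_self R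
  have := abs_nonneg R
  rw [mem_ball_zero_iff]
  exact norm_lt_gau (by linarith) (by nlinarith [sq_nonneg (rho p)])
    (by nlinarith [sq_nonneg p.2.2, sq_nonneg (rho p - 1)])

theorem gau_bdd {K : Set H} (hK : IsCompact K) : ∃ R, ∀ p ∈ K, gau p < R := by
  obtain ⟨R, hR⟩ := (hK.image cont_gau).bddAbove
  exact ⟨R + 1, fun p hp => by linarith [hR ⟨p, hp, rfl⟩]⟩

theorem iv_top : Tendsto iv (cocompact H) (𝓝 0) := by
  intro s hs
  obtain ⟨η, h0, -, h⟩ := gau_basis hs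
  refine mem_map.2 (mem_of_superset (cpt_gau η⁻¹).compl_mem_cocompact fun p hp => h _ ?_)
  have h1 : η⁻¹ < gau p := not_le.1 hp
  have h2 : p ≠ 0 := fun e => by
    rw [e, gau_zero] at h1
    exact (inv_pos.2 h0).not_gt h1
  rw [gau_iv h2]
  exact (inv_lt_of_inv_lt₀ h0 h1).le

theorem iv_zero : Tendsto iv (𝓝[≠] 0) (cocompact H) := by
  refine hasBasis_cocompact.tendsto_right_iff.2 fun K hK => ?_
  obtain ⟨R, hR⟩ := gau_bdd hK
  have R0 : 0 < |R| + 1 := by positivity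
  have : ∀ᶠ q in 𝓝 (0 : H), gau q < (|R| + 1)⁻¹ := cont_gau.continuousAt.eventually_lt
    continuousAt_const (by rw [gau_zero]; exact inv_pos.2 R0)
  filter_upwards [mem_nhdsWithin_of_mem_nhds this, self_mem_nhdsWithin] with q h1 h2 h3
  have h4 := hR _ h3
  rw [gau_iv h2] at h4
  have := lt_inv_of_lt_inv₀ (gau_pos h2) h1
  linarith [le_abs_self R]

def xo : H := (1, 0, 0)
def mu (p : H) : H := iv (tr (-xo) p)
def nu (p : H) : H := tr xo (iv p)

theorem gau_xo : gau xo = 1 := by simp [gau, rho, xo]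

theorem tr_ne {p : H} (h : p ≠ xo) : tr (-xo) p ≠ 0 := fun e => h (by
  rw [← tr_tr' xo p, e, tr_zero])

theorem nu_mu {p : H} (h : p ≠ xo) : nu (mu p) = p := by rw [nu, mu, iv_iv (tr_ne h), tr_tr']
theorem mu_nu {p : H} (h : p ≠ 0) : mu (nu p) = p := by rw [nu, mu, tr_tr, iv_iv h]
theorem nu_ne {p : H} (h : p ≠ 0) : nu p ≠ xo := fun e => iv_ne h (by
  rw [← tr_tr xo (iv p)]; exact (congrArg (tr (-xo)) e).trans (tr_self xo))
theorem LH_mu {p : H} (h : p ≠ xo) : LH mu p := (LH_iv (tr_ne h)).comp (LH_tr _ p)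
theorem LH_nu {p : H} (h : p ≠ 0) : LH nu p := (LH_tr _ _).comp (LH_iv h)

theorem nu_top : Tendsto nu (cocompact H) (𝓝 xo) := by
  have := (LH_tr xo 0).cont.tendsto
  rw [tr_zero] at this
  exact this.comp iv_top

theorem mu_xo : Tendsto mu (𝓝[≠] xo) (cocompact H) := by
  refine iv_zero.comp (tendsto_nhdsWithin_iff.2 ⟨?_, ?_⟩)
  · have := (LH_tr (-xo) xo).cont.tendsto
    rw [tr_self] at this
    exact this.mono_left nhdsWithin_le_nhds
  · filter_upwards [self_mem_nhdsWithin] with p hp using tr_ne hp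

theorem mu_zero : mu 0 = (-1, 0, 0) := by
  simp [mu, tr_zero, iv, sc, xo, ze, gau, rho]

variable {E : Type} [NormedAddCommGroup E] [NormedSpace ℝ E] {M : Type} [TopologicalSpace M]
  [ChartedSpace E M] {α : M → E → ℝ} {e : H → M} {J : M → H} {a b : ℝ}

/-- The trick of Morse: the embedding can be made to agree with the chart near one point. -/
theorem morse {W : Set M} {S K : Set H} {x : H} (oS : IsOpen S) (hx : x ∈ S)
    (he : ∀ p ∈ S, LD aH α e p) (ie : InjOn e S) (mS : MapsTo e S W)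
    (hJ : ∀ m ∈ W, LD α aH J m) (iJ : InjOn J W) (cK : IsCompact K) (mK : MapsTo J W K) :
    ∃ J' : M → H, (∀ m ∈ W, LD α aH J' m) ∧ InjOn J' W ∧ ∀ᶠ p in 𝓝 x, J' (e p) = p := by
  set y := J (e x)
  set φ : H → H := fun p => tr (-y) (J (e p)) with hφ
  have lφ : ∀ p ∈ S, LH φ p := fun p hp => (LH_tr _ _).comp ((hJ _ (mS hp)).comp (he p hp))
  have it : Injective (tr (-y)) := LeftInverse.injective (tr_tr' y)
  have iφ : InjOn φ S := fun p hp q hq h => ie hp hq (iJ (mS hp) (mS hq) (it h))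
  have φ0 : φ x = 0 := tr_self y
  obtain ⟨η, η0, -, hη⟩ := gau_basis (φ0 ▸ (lφ x hx).image_mem (oS.mem_nhds hx))
  obtain ⟨L, hL⟩ := gau_bdd (cK.image (continuous_iff_continuousAt.2 fun p => (LH_tr (-y) p).cont))
  obtain ⟨R, r1, r2, r3⟩ := exists_up (half_pos η0) (half_lt_self η0) L
  have lR : ∀ p, LH R.symm p := fun p =>
    (r1 (R.symm p)).symm' (.of_forall R.symm_apply_apply) (R.apply_symm_apply p)
  have mR : ∀ m ∈ W, R.symm (tr (-y) (J m)) ∈ φ '' S := fun m hm => hη _ (by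
    by_contra h
    have := r3 _ (not_le.1 h).le
    rw [R.apply_symm_apply] at this
    exact (hL _ ⟨_, mK hm, rfl⟩).not_ge this)
  have gl : ∀ p ∈ S, invFunOn φ S (φ p) = p := fun p hp => iφ.leftInvOn_invFunOn hp
  have lg : ∀ q ∈ φ '' S, LH (invFunOn φ S) q := by
    rintro _ ⟨p, hp, rfl⟩
    exact (lφ p hp).symm (by filter_upwards [oS.mem_nhds hp] with q hq using gl q hq)
  refine ⟨fun m => invFunOn φ S (R.symm (tr (-y) (J m))), fun m hm =>
    (lg _ (mR m hm)).comp' ((lR _).comp' ((LH_tr (-y) _).comp' (hJ m hm) rfl) rfl) rfl,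
    fun m hm m' hm' h => ?_, ?_⟩
  · obtain ⟨p, hp, e1⟩ := mR m hm
    obtain ⟨q, hq, e2⟩ := mR m' hm'
    simp only [← e1, ← e2, gl p hp, gl q hq] at h
    rw [h, e2] at e1
    exact (iJ hm' hm (it (R.symm.injective e1))).symm
  · have : ∀ᶠ p in 𝓝 x, gau (φ p) < η / 2 :=
      (cont_gau.continuousAt.comp (lφ x hx).cont).eventually_lt continuousAt_const
        (by simp [φ0, η0])
    filter_upwards [this, oS.mem_nhds hx] with p h1 h2
    have : R.symm (φ p) = φ p := by rw [Equiv.symm_apply_eq, r2 _ h1]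
    exact (congrArg _ this).trans (gl p h2)

theorem core [T2Space M] [CompactSpace M] (a0 : 0 < a) (a1 : a < 1) (b1 : 1 < b)
    (he : ∀ p, gau p < b → LD aH α e p) (ie : InjOn e {p | gau p < b})
    (hJ : ∀ m ∈ (e '' {p | gau p ≤ a})ᶜ, LD α aH J m) (iJ : InjOn J (e '' {p | gau p ≤ a})ᶜ)
    {K : Set H} (cK : IsCompact K) (mK : MapsTo J (e '' {p | gau p ≤ a})ᶜ K) :
    ∃ (m₀ : M) (Ψ : M → H), BijOn Ψ {m₀}ᶜ univ ∧ ∀ m ≠ m₀, LD α aH Ψ m := by
  set W := (e '' {p | gau p ≤ a})ᶜ with hW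
  have mS : MapsTo e {p | a < gau p ∧ gau p < b} W := by
    rintro p hp ⟨q, hq, eq⟩
    have hq' : gau q ≤ a := hq
    rw [ie (show gau q < b by linarith) hp.2 eq] at hq'
    exact hp.1.not_ge hq'
  have hx : xo ∈ {p | a < gau p ∧ gau p < b} := ⟨gau_xo ▸ a1, gau_xo ▸ b1⟩
  obtain ⟨J', j1, j2, j3⟩ := morse ((isOpen_lt continuous_const cont_gau).inter
    (isOpen_lt cont_gau continuous_const)) hx (fun p hp => he p hp.2) (ie.mono fun p hp => hp.2)
    mS hJ iJ cK mK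
  have oW : IsOpen W := ((cpt_gau a).image_of_continuousOn
    (contOn_of_LD fun p (hp : gau p ≤ a) => he p (by linarith))).isClosed.isOpen_compl
  have x0 : (0 : H) ≠ xo := by simp [xo, Prod.ext_iff]
  obtain ⟨δ, δ0, δ1, hδ⟩ := gau_basis (s := {p | p ≠ xo ∧ mu p ∈ N2 1}) (inter_mem
    (eventually_ne_nhds x0) ((LH_mu x0).cont.eventually ((open_N2 1).mem_nhds (by
      rw [mu_zero]; norm_num [N2]))))
  obtain ⟨Lb, hLb⟩ := gau_bdd ((cpt_gau 300).image
    (continuous_iff_continuousAt.2 fun p => (LH_tr xo p).cont))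
  obtain ⟨Dn, d1, d2, d3⟩ := exists_down (u₂ := (a + 1) / 2) a0 (by linarith) δ0
  obtain ⟨Up, u1, u2, u3⟩ := exists_up (u₁ := (1 + b) / 2) (u₂ := b) (by linarith) (by linarith) Lb
  set σ : H ≃ H := Dn.trans Up
  have eσ : ∀ p, σ p = Up (Dn p) := fun _ => rfl
  have lσ : ∀ p, LH σ.symm p := fun p => ((u1 _).comp (d1 (σ.symm p))).symm'
    (.of_forall σ.symm_apply_apply) (σ.apply_symm_apply p)
  have σ1 : ∀ᶠ p in 𝓝 xo, σ.symm p = p := by
    have h1 : ∀ᶠ p in 𝓝 xo, (a + 1) / 2 < gau p := continuousAt_const.eventually_lt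
      cont_gau.continuousAt (by rw [gau_xo]; linarith)
    have h2 : ∀ᶠ p in 𝓝 xo, gau p < (1 + b) / 2 := cont_gau.continuousAt.eventually_lt
      continuousAt_const (by rw [gau_xo]; linarith)
    filter_upwards [h1, h2] with p h1 h2
    rw [Equiv.symm_apply_eq, eσ, d2 p h1, u2 p h2]
  have n0 : ∀ p : H, ¬gau p ≤ 1 / 300 → p ≠ 0 := fun p hp e => hp (by rw [e, gau_zero]; norm_num)
  have σ2 : ∀ p, ¬gau p ≤ 1 / 300 → gau (σ.symm (nu p)) < b := fun p hp => by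
    by_contra h
    have h1 := not_lt.1 h
    have h2 := u3 _ h1
    rw [← d2 _ (show (a + 1) / 2 < gau (σ.symm (nu p)) by linarith), ← eσ,
      σ.apply_symm_apply] at h2
    refine (hLb _ ⟨iv p, ?_, rfl⟩).not_ge h2
    change gau (iv p) ≤ 300
    rw [gau_iv (n0 p hp)]
    exact (inv_lt_of_inv_lt₀ (by norm_num) (by linarith [not_le.1 hp])).le
  have sW : ((fun p => e (σ.symm (nu p))) '' (mu '' {p | gau p ≤ δ}) ∪ {e xo})ᶜ ⊆ W := by
    rintro m hm ⟨p, hp, rfl⟩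
    have h1 := d3 p hp
    have h2 : σ p = Dn p := u2 _ (by linarith)
    refine hm (Or.inl ⟨mu (σ p), ⟨σ p, h2 ▸ h1, rfl⟩, ?_⟩)
    simp only [nu_mu (hδ _ (h2 ▸ h1)).1, σ.symm_apply_apply]
  have jx : ∀ m ∈ W, m ≠ e xo → J' m ≠ xo := fun m hm hn h =>
    hn (j2 hm (mS hx) (h.trans j3.self_of_nhds.symm))
  obtain ⟨C, cC, hC⟩ := mem_cocompact.1 (inter_mem (nu_top.eventually (σ1.and j3))
    (isCompact_singleton (x := (0 : H))).compl_mem_cocompact)
  obtain ⟨R, hR⟩ := gau_bdd cC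
  refine ⟨e xo, Dat.swindle (e := fun p => e (σ.symm (nu p))) (J := fun m => mu (J' m))
    (D₁ := {p | gau p ≤ 1 / 300}) (D₂ := mu '' {p | gau p ≤ δ}) (L := |R| + 1)
    ⟨by positivity, (cpt_gau _).isClosed,
      (cpt_gau δ).image_of_continuousOn (contOn_of_LD fun p hp => LH_mu (hδ p hp).1),
      fun p hp => ?_, ?_, 
      fun p hp => (he _ (σ2 p hp)).comp' ((lσ _).comp' (LH_nu (n0 p hp)) rfl) rfl,
      fun p hp q hq h => ?_, fun p hp h => ?_,
      fun m hm => (LH_mu (jx m (sW hm) fun h => hm (Or.inr h))).comp (j1 m (sW hm)),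
      fun m hm m' hm' h => ?_, fun p hp => ?_, ?_, ?_⟩⟩
  · have h1 : ‖p‖ < 1 / 4 := norm_lt_small (by norm_num) (by norm_num)
      (lt_of_le_of_lt hp (by norm_num))
    have h2 := (Complex.abs_re_le_norm p.1).trans (norm_fst_le p)
    have h3 : |p.2.2| ≤ ‖p‖ := (norm_snd_le p.2).trans (norm_snd_le p)
    exact ⟨by linarith [(abs_le.1 h2).1], by linarith [abs_nonneg R]⟩
  · rintro _ ⟨p, hp, rfl⟩
    exact ⟨(hδ p hp).2.1, by linarith [(hδ p hp).2.2, abs_nonneg R]⟩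
  · rw [← mu_nu (n0 p hp), ← mu_nu (n0 q hq), σ.symm.injective (ie (σ2 p hp) (σ2 q hq) h)]
  · have := ie (σ2 p hp) hx.2 h
    rw [← σ1.self_of_nhds] at this
    exact nu_ne (n0 p hp) (σ.symm.injective this)
  · refine j2 (sW hm) (sW hm') ?_
    rw [← nu_mu (jx m (sW hm) fun h => hm (Or.inr h)),
      ← nu_mu (jx m' (sW hm') fun h => hm' (Or.inr h))]
    exact congrArg nu h
  · have : p ∉ C := fun h => by
      have h1 := hR p h
      have h2 := le_abs_self R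
      have h3 := abs_nonneg R
      unfold gau at h1
      nlinarith [sq_nonneg (rho p), sq_abs p.2.2]
    obtain ⟨⟨h1, h2⟩, h3⟩ := hC this
    simp only [h1, h2, mu_nu h3]
  · have h1 := (lσ xo).cont.tendsto
    rw [σ1.self_of_nhds] at h1
    exact (he xo hx.2).cont.tendsto.comp (h1.comp nu_top)
  · refine mu_xo.comp (tendsto_nhdsWithin_iff.2 ⟨?_, ?_⟩)
    · have := (j1 _ (mS hx)).cont.tendsto
      rw [j3.self_of_nhds] at this
      exact this.mono_left nhdsWithin_le_nhds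
    · filter_upwards [self_mem_nhdsWithin, mem_nhdsWithin_of_mem_nhds (oW.mem_nhds (mS hx))]
        with m h1 h2 using jx m h2 h1

end
end Pool.Agent.Lib.MP_efe47c_gt
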