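import Mathlib

/-! One-forms on manifolds, the standard contact sphere, contact connected sums. -/

namespace Pool.Agent.Lib.MP_efe47c_gt
open Set Metric
open scoped Manifold ContDiff

noncomputable section

section general
variable (E : Type) [NormedAddCommGroup E] [NormedSpace ℝ E] (M N : Type) {P S : Type}
  [TopologicalSpace M] [ChartedSpace E M] [TopologicalSpace N] [ChartedSpace E N]
  [TopologicalSpace P] [ChartedSpace E P] [TopologicalSpace S] [ChartedSpace E S]

/-- One-forms on a manifold modelled on `E`. -/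
abbrev Form := (x : M) → TangentSpace 𝓘(ℝ, E) x →L[ℝ] ℝ

/-- Diffeomorphisms from an open subset of `M` onto an open subset of `N`. -/
abbrev PD := PartialDiffeomorph 𝓘(ℝ, E) 𝓘(ℝ, E) M N ∞

variable {E M N}

/-- Pull-back of a one-form on a vector space. -/
def pull {V : Type} [NormedAddCommGroup V] [NormedSpace ℝ V] (f : M → V) (a : V → V →L[ℝ] ℝ) :
    Form E M := fun x => (a (f x)).comp (mfderiv 𝓘(ℝ, E) 𝓘(ℝ, V) f x)

/-- `f` pulls `β` back to a positive multiple of `α`. -/
def Contacto (α : Form E M) (β : Form E N) (f : PD E M N) : Prop :=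
  ∀ x ∈ f.source, ∃ c : ℝ, 0 < c ∧ ∀ v, β (f x) (mfderiv 𝓘(ℝ, E) 𝓘(ℝ, E) f x v) = c * α x v

/-- `M` minus one point is contactomorphic to `N` minus one point. -/
def OffPoint (α : Form E M) (β : Form E N) : Prop :=
  ∃ (x : M) (y : N) (f : PD E M N), f.source = {x}ᶜ ∧ f.target = {y}ᶜ ∧ Contacto α β f

/-- `e` is a Darboux ball in `M` (a neighbourhood of a closed hemisphere of the model sphere `S`
with height function `h`) and `j` embeds the complement of the smaller closed ball in `P`. -/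
def Piece (σ : Form E S) (h : S → ℝ) (ε : ℝ) (α : Form E M) (γ : Form E P) (e : PD E S M)
    (j : PD E M P) : Prop :=
  Contacto σ α e ∧ Contacto α γ j ∧ e.source = {p | -ε < h p} ∧ j.source = (e '' {p | ε ≤ h p})ᶜ

/-- `P` is glued from the two pieces along the neck by the antipodal map `a`. -/
def Glued (σ : Form E S) (h : S → ℝ) (a : S → S) (α : Form E M) (β : Form E N) (γ : Form E P) :
    Prop :=
  ∃ ε : ℝ, 0 < ε ∧ ε < 1 ∧ ∃ e₁ j₁ e₂ j₂, Piece σ h ε α γ e₁ j₁ ∧ Piece σ h ε β γ e₂ j₂ ∧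
    j₁.target ∪ j₂.target = univ ∧ ∀ x ∈ j₁.source, ∀ y ∈ j₂.source,
      j₁ x = j₂ y ↔ ∃ p, |h p| < ε ∧ x = e₁ p ∧ y = e₂ (a p)

end general

abbrev R5 := EuclideanSpace ℝ (Fin 5)
abbrev C3 := EuclideanSpace ℂ (Fin 3)

theorem rank_C3 : Module.finrank ℝ C3 = 5 + 1 := by
  rw [← Module.finrank_mul_finrank ℝ ℂ C3, Complex.finrank_real_complex, finrank_euclideanSpace_fin]

instance : Fact (Module.finrank ℝ C3 = 5 + 1) := ⟨rank_C3⟩

/-- The unit sphere of `ℂ³`. -/
abbrev S5 := sphere (0 : C3) 1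

/-- The form `∑ x dy - y dx` on `ℂ³`. -/
def lam (p : C3) : C3 →L[ℝ] ℝ := innerSL ℝ (Complex.I • p)

/-- The standard contact form on the sphere. -/
def std : Form R5 S5 := pull ((↑) : S5 → C3) lam

/-- The third manifold is a contact connected sum of the first two. -/
def IsSum {M N P : Type} [TopologicalSpace M] [ChartedSpace R5 M] [TopologicalSpace N]
    [ChartedSpace R5 N] [TopologicalSpace P] [ChartedSpace R5 P] (α : Form R5 M) (β : Form R5 N)
    (γ : Form R5 P) : Prop :=
  Glued std (fun p => ((p : C3) 0).re) (fun p => -p) α β γ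

end
end Pool.Agent.Lib.MP_efe47c_gt
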