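import Pool.Agent.Lib.MP_efe47c_gt.Loc

/-! The Heisenberg group: translations, shears and the inversion. -/

namespace Pool.Agent.Lib.MP_efe47c_gt
open Set Filter Topology Complex
open scoped ContDiff ComplexConjugate

noncomputable section

abbrev H := ℂ × ℂ × ℝ

def rho (p : H) : ℝ := normSq p.1 + normSq p.2.1
def th (p v : H) : ℝ := (conj p.1 * v.1).im + (conj p.2.1 * v.2.1).im
def rd (p v : H) : ℝ := 2 * ((conj p.1 * v.1).re + (conj p.2.1 * v.2.1).re)
def aH (p v : H) : ℝ := v.2.2 + 2 * th p v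
def gau (p : H) : ℝ := rho p ^ 2 + p.2.2 ^ 2

abbrev LH (f : H → H) (p : H) : Prop := LD aH aH f p

theorem rho_nn (p : H) : 0 ≤ rho p := add_nonneg (normSq_nonneg _) (normSq_nonneg _)
theorem gau_nn (p : H) : 0 ≤ gau p := by unfold gau; positivity

theorem gau_pos {p : H} (h : p ≠ 0) : 0 < gau p := by
  refine (gau_nn p).lt_of_ne fun e => h ?_
  have h1 : rho p = 0 := by unfold gau at e; nlinarith [sq_nonneg (rho p), sq_nonneg p.2.2]
  have h2 : p.2.2 = 0 := by unfold gau at e; nlinarith [sq_nonneg (rho p), sq_nonneg p.2.2]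
  have h3 : normSq p.1 = 0 := by
    unfold rho at h1; nlinarith [normSq_nonneg p.1, normSq_nonneg p.2.1]
  have h4 : normSq p.2.1 = 0 := by
    unfold rho at h1; nlinarith [normSq_nonneg p.1, normSq_nonneg p.2.1]
  exact Prod.ext (normSq_eq_zero.1 h3) (Prod.ext (normSq_eq_zero.1 h4) h2)

@[simp] theorem gau_zero : gau 0 = 0 := by simp [gau, rho]

theorem cd_re {X : Type} [NormedAddCommGroup X] [NormedSpace ℝ X] {f : X → ℂ} {x : X}
    (h : ContDiffAt ℝ ∞ f x) : ContDiffAt ℝ ∞ (fun y => (f y).re) x :=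
  reCLM.contDiff.contDiffAt.comp x h

theorem cd_im {X : Type} [NormedAddCommGroup X] [NormedSpace ℝ X] {f : X → ℂ} {x : X}
    (h : ContDiffAt ℝ ∞ f x) : ContDiffAt ℝ ∞ (fun y => (f y).im) x :=
  imCLM.contDiff.contDiffAt.comp x h

theorem cd_conj {X : Type} [NormedAddCommGroup X] [NormedSpace ℝ X] {f : X → ℂ} {x : X}
    (h : ContDiffAt ℝ ∞ f x) : ContDiffAt ℝ ∞ (fun y => conj (f y)) x :=
  conjCLE.contDiff.contDiffAt.comp x h

theorem cd_of {X : Type} [NormedAddCommGroup X] [NormedSpace ℝ X] {f : X → ℝ} {x : X}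
    (h : ContDiffAt ℝ ∞ f x) : ContDiffAt ℝ ∞ (fun y => (f y : ℂ)) x :=
  ofRealCLM.contDiff.contDiffAt.comp x h

theorem cd_nsq {X : Type} [NormedAddCommGroup X] [NormedSpace ℝ X] {f : X → ℂ} {x : X}
    (h : ContDiffAt ℝ ∞ f x) : ContDiffAt ℝ ∞ (fun y => normSq (f y)) x := by
  simp only [normSq_apply]
  exact ((cd_re h).mul (cd_re h)).add ((cd_im h).mul (cd_im h))

theorem cd_div {X : Type} [NormedAddCommGroup X] [NormedSpace ℝ X] {f g : X → ℂ} {x : X}
    (h : ContDiffAt ℝ ∞ f x) (k : ContDiffAt ℝ ∞ g x) (e : g x ≠ 0) :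
    ContDiffAt ℝ ∞ (fun y => f y / g y) x := by
  simp only [div_eq_mul_inv]
  exact h.mul (k.inv e)

theorem cd1 (p : H) : ContDiffAt ℝ ∞ (fun q : H => q.1) p := contDiffAt_fst
theorem cd2 (p : H) : ContDiffAt ℝ ∞ (fun q : H => q.2.1) p := contDiffAt_snd.fst
theorem cd3 (p : H) : ContDiffAt ℝ ∞ (fun q : H => q.2.2) p := contDiffAt_snd.snd
theorem cd_rho (p : H) : ContDiffAt ℝ ∞ rho p := (cd_nsq (cd1 p)).add (cd_nsq (cd2 p))
theorem cd_gau (p : H) : ContDiffAt ℝ ∞ gau p := ((cd_rho p).pow 2).add ((cd3 p).pow 2)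
theorem cont_gau : Continuous gau := continuous_iff_continuousAt.2 fun p => (cd_gau p).continuousAt

theorem cd_th (a p : H) : ContDiffAt ℝ ∞ (th a) p :=
  (cd_im (contDiffAt_const.mul (cd1 p))).add (cd_im (contDiffAt_const.mul (cd2 p)))

theorem cd_diff {X Y : Type} [NormedAddCommGroup X] [NormedSpace ℝ X] [NormedAddCommGroup Y]
    [NormedSpace ℝ Y] {f : X → Y} {x : X} (h : ContDiffAt ℝ ∞ f x) : DifferentiableAt ℝ f x :=
  h.differentiableAt (by simp)

theorem fd_line {X Y : Type} [NormedAddCommGroup X] [NormedSpace ℝ X] [NormedAddCommGroup Y]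
    [NormedSpace ℝ Y] {f : X → Y} {p v : X} {a : Y} (hf : ContDiffAt ℝ ∞ f p)
    (h : HasDerivAt (fun s : ℝ => f (p + s • v)) a 0) : fderiv ℝ f p v = a :=
  ((cd_diff hf).hasFDerivAt.hasLineDerivAt v).unique h

theorem hd_re {f : ℝ → ℂ} {a : ℂ} {s : ℝ} (h : HasDerivAt f a s) :
    HasDerivAt (fun y => (f y).re) a.re s := reCLM.hasFDerivAt.comp_hasDerivAt s h

theorem hd_im {f : ℝ → ℂ} {a : ℂ} {s : ℝ} (h : HasDerivAt f a s) :
    HasDerivAt (fun y => (f y).im) a.im s := imCLM.hasFDerivAt.comp_hasDerivAt s h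

theorem hd_conj {f : ℝ → ℂ} {a : ℂ} {s : ℝ} (h : HasDerivAt f a s) :
    HasDerivAt (fun y => conj (f y)) (conj a) s :=
  (conjCLE : ℂ →L[ℝ] ℂ).hasFDerivAt.comp_hasDerivAt s h

theorem hd_nsq {f : ℝ → ℂ} {a : ℂ} {s : ℝ} (h : HasDerivAt f a s) :
    HasDerivAt (fun y => normSq (f y)) (2 * (conj (f s) * a).re) s := by
  simp only [normSq_apply]
  refine (((hd_re h).mul (hd_re h)).add ((hd_im h).mul (hd_im h))).congr_deriv ?_
  simp; ring

theorem hd_line {X : Type} [NormedAddCommGroup X] [NormedSpace ℝ X] (p v : X) :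
    HasDerivAt (fun s : ℝ => p + s • v) v 0 := by
  simpa using ((hasDerivAt_id (0 : ℝ)).smul_const v).const_add p

theorem hd1 (p v : H) : HasDerivAt (fun s : ℝ => (p + s • v).1) v.1 0 := hd_line p.1 v.1
theorem hd2 (p v : H) : HasDerivAt (fun s : ℝ => (p + s • v).2.1) v.2.1 0 := hd_line p.2.1 v.2.1
theorem hd3 (p v : H) : HasDerivAt (fun s : ℝ => (p + s • v).2.2) v.2.2 0 := hd_line p.2.2 v.2.2

theorem hd_rho (p v : H) : HasDerivAt (fun s : ℝ => rho (p + s • v)) (rd p v) 0 := by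
  refine ((hd_nsq (hd1 p v)).add (hd_nsq (hd2 p v))).congr_deriv ?_
  simp [rd]; ring

theorem hd_gau (p v : H) :
    HasDerivAt (fun s : ℝ => gau (p + s • v)) (2 * rho p * rd p v + 2 * p.2.2 * v.2.2) 0 := by
  refine (((hd_rho p v).pow 2).add ((hd3 p v).pow 2)).congr_deriv ?_
  simp

/-! ### Translations -/

def tr (a p : H) : H := (p.1 + a.1, p.2.1 + a.2.1, p.2.2 + a.2.2 - 2 * th a p)

theorem tr_tr (a p : H) : tr (-a) (tr a p) = p := by
  refine Prod.ext (by simp [tr]) (Prod.ext (by simp [tr]) ?_)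
  simp [tr, th]; ring

theorem tr_tr' (a p : H) : tr a (tr (-a) p) = p := by simpa using tr_tr (-a) p

theorem tr_self (a : H) : tr (-a) a = 0 := by
  refine Prod.ext (by simp [tr]) (Prod.ext (by simp [tr]) ?_)
  simp [tr, th]; ring

theorem tr_zero (a : H) : tr a 0 = a := by simp [tr, th]

theorem cd_tr (a p : H) : ContDiffAt ℝ ∞ (tr a) p :=
  ((cd1 p).add contDiffAt_const).prodMk (((cd2 p).add contDiffAt_const).prodMk
    (((cd3 p).add contDiffAt_const).sub (contDiffAt_const.mul (cd_th a p))))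

theorem LH_tr (a p : H) : LH (tr a) p := by
  refine LD.of_vec (cd_tr a p) (cd_tr (-a) _) (.of_forall (tr_tr a)) (.of_forall (tr_tr' a))
    one_pos fun v => ?_
  have h : HasDerivAt (fun s : ℝ => tr a (p + s • v)) (v.1, v.2.1, v.2.2 - 2 * th a v) 0 :=
    ((hd1 p v).add_const _).prodMk (((hd2 p v).add_const _).prodMk (((hd3 p v).add_const _).sub
      (((hd_im ((hd1 p v).const_mul _)).add (hd_im ((hd2 p v).const_mul _))).const_mul 2)))
  rw [fd_line (cd_tr a p) h]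
  simp [aH, th, tr]; ring

/-! ### Shears -/

def shear (h : ℝ → ℝ) (p : H) : H :=
  (p.1 + I * ((deriv h p.1.re / 4 : ℝ) : ℂ), p.2.1,
    p.2.2 + (h p.1.re - p.1.re * deriv h p.1.re / 2))

theorem shear_re (h : ℝ → ℝ) (p : H) : (shear h p).1.re = p.1.re := by simp [shear]

theorem shear_inv (h : ℝ → ℝ) (p : H) : shear (-h) (shear h p) = p := by
  have e := shear_re h p
  refine Prod.ext ?_ (Prod.ext rfl ?_)
  · change (shear h p).1 + I * ((deriv (-h) (shear h p).1.re / 4 : ℝ) : ℂ) = p.1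
    rw [e, deriv.neg']
    simp [shear]; ring
  · change (shear h p).2.2 + ((-h) (shear h p).1.re -
      (shear h p).1.re * deriv (-h) (shear h p).1.re / 2) = p.2.2
    rw [e, deriv.neg']
    simp [shear]; ring

theorem cd_deriv {h : ℝ → ℝ} (hh : ContDiff ℝ ∞ h) : ContDiff ℝ ∞ (deriv h) :=
  (contDiff_infty_iff_deriv.1 hh).2

theorem cd_shear {h : ℝ → ℝ} (hh : ContDiff ℝ ∞ h) (p : H) : ContDiffAt ℝ ∞ (shear h) p := by
  have x := cd_re (cd1 p)
  have a : ContDiffAt ℝ ∞ (fun q : H => h q.1.re) p := hh.contDiffAt.comp p x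
  have b : ContDiffAt ℝ ∞ (fun q : H => deriv h q.1.re) p := (cd_deriv hh).contDiffAt.comp p x
  exact ((cd1 p).add (contDiffAt_const.mul (cd_of (b.div_const 4)))).prodMk
    ((cd2 p).prodMk ((cd3 p).add (a.sub ((x.mul b).div_const 2))))

theorem LH_shear {h : ℝ → ℝ} (hh : ContDiff ℝ ∞ h) (p : H) : LH (shear h) p := by
  refine LD.of_vec (cd_shear hh p) (cd_shear hh.neg _) (.of_forall (shear_inv h))
    (.of_forall fun q => by have := shear_inv (-h) q; rwa [neg_neg] at this) one_pos fun v => ?_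
  have x := hd_re (hd1 p v)
  have a : HasDerivAt (fun s : ℝ => h (p + s • v).1.re) (deriv h p.1.re * v.1.re) 0 :=
    HasDerivAt.comp_of_eq (0 : ℝ) (cd_diff hh.contDiffAt).hasDerivAt x (by simp)
  have b : HasDerivAt (fun s : ℝ => deriv h (p + s • v).1.re)
      (deriv (deriv h) p.1.re * v.1.re) 0 :=
    HasDerivAt.comp_of_eq (0 : ℝ) (cd_diff (cd_deriv hh).contDiffAt).hasDerivAt x (by simp)
  have e := ((hd1 p v).add (((b.div_const 4).ofReal_comp).const_mul I)).prodMk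
    ((hd2 p v).prodMk ((hd3 p v).add (a.sub ((x.mul b).div_const 2))))
  rw [fd_line (cd_shear hh p) e]
  simp only [aH, th, shear, zero_smul, add_zero, mul_im, mul_re, add_re, add_im, conj_re, conj_im,
    ofReal_re, ofReal_im, I_re, I_im]
  ring

/-! ### Unitarily equivariant maps -/

def sc (lam : H → ℂ) (T : H → ℝ) (q : H) : H := (lam q * q.1, lam q * q.2.1, T q)

theorem cd_sc {lam : H → ℂ} {T : H → ℝ} {p : H} (hl : ContDiffAt ℝ ∞ lam p)
    (hT : ContDiffAt ℝ ∞ T p) : ContDiffAt ℝ ∞ (sc lam T) p :=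
  (hl.mul (cd1 p)).prodMk ((hl.mul (cd2 p)).prodMk hT)

theorem rho_sc (lam : H → ℂ) (T : H → ℝ) (p : H) : rho (sc lam T p) = normSq (lam p) * rho p := by
  simp [rho, sc]; ring

theorem aH_sc {lam : H → ℂ} {T : H → ℝ} {p v : H} (hl : ContDiffAt ℝ ∞ lam p)
    (hT : ContDiffAt ℝ ∞ T p) {l' : ℂ} {T' : ℝ}
    (dl : HasDerivAt (fun s : ℝ => lam (p + s • v)) l' 0)
    (dT : HasDerivAt (fun s : ℝ => T (p + s • v)) T' 0)
    (h : T' + 2 * rho p * (conj (lam p) * l').im = normSq (lam p) * v.2.2) :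
    aH (sc lam T p) (fderiv ℝ (sc lam T) p v) = normSq (lam p) * aH p v := by
  have e := (dl.mul (hd1 p v)).prodMk ((dl.mul (hd2 p v)).prodMk dT)
  rw [fd_line (cd_sc hl hT) e]
  simp only [aH, th, sc, rho, normSq_apply, zero_smul, add_zero, map_mul, mul_im, mul_re, add_re,
    add_im, conj_re, conj_im] at h ⊢
  linear_combination h

/-- The complex gauge with the vertical coordinate multiplied by `c`. -/
def ze (c : ℝ) (p : H) : ℂ := (rho p : ℂ) + ((c * p.2.2 : ℝ) : ℂ) * I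

@[simp] theorem ze_re (c : ℝ) (p : H) : (ze c p).re = rho p := by simp [ze]
@[simp] theorem ze_im (c : ℝ) (p : H) : (ze c p).im = c * p.2.2 := by simp [ze]

theorem nsq_ze (p : H) : normSq (ze 1 p) = gau p := by simp [normSq_apply, gau]; ring

theorem ze_slit {c : ℝ} (hc : c ≠ 0) {p : H} (h : p ≠ 0) : ze c p ∈ slitPlane := by
  rw [mem_slitPlane_iff, ze_re, ze_im]
  rcases (rho_nn p).lt_or_eq with h1 | h1
  · exact Or.inl h1
  · refine Or.inr (mul_ne_zero hc fun e => ?_)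
    have := gau_pos h
    rw [gau, ← h1, e] at this
    simp at this

theorem ze_ne {c : ℝ} (hc : c ≠ 0) {p : H} (h : p ≠ 0) : ze c p ≠ 0 :=
  slitPlane_ne_zero (ze_slit hc h)

theorem cd_ze {c : H → ℝ} {p : H} (hc : ContDiffAt ℝ ∞ c p) :
    ContDiffAt ℝ ∞ (fun q => ze (c q) q) p :=
  (cd_of (cd_rho p)).add ((cd_of (hc.mul (cd3 p))).mul contDiffAt_const)

/-! ### The inversion -/

def iv : H → H := sc (fun q => ze 1 q / (gau q : ℂ)) fun q => -q.2.2 / gau q

theorem rho_iv {p : H} (h : p ≠ 0) : rho (iv p) = rho p / gau p := by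
  have := (gau_pos h).ne'
  rw [iv, rho_sc, normSq_div, nsq_ze, normSq_ofReal]
  field_simp

theorem gau_iv {p : H} (h : p ≠ 0) : gau (iv p) = (gau p)⁻¹ := by
  have := (gau_pos h).ne'
  rw [gau, rho_iv h]
  change (rho p / gau p) ^ 2 + (-p.2.2 / gau p) ^ 2 = _
  field_simp
  rfl

theorem iv_ne {p : H} (h : p ≠ 0) : iv p ≠ 0 := fun e => by
  have := gau_iv h
  rw [e, gau_zero] at this
  exact (inv_pos.2 (gau_pos h)).ne this

theorem iv_iv {p : H} (h : p ≠ 0) : iv (iv p) = p := by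
  have g0 := (gau_pos h).ne'
  have g1 : (gau p : ℂ) ≠ 0 := ofReal_ne_zero.2 g0
  have e : ze 1 (iv p) / (gau (iv p) : ℂ) * (ze 1 p / (gau p : ℂ)) = 1 := by
    have e1 : ze 1 (iv p) = conj (ze 1 p) / (gau p : ℂ) := by
      apply Complex.ext
      · rw [ze_re, rho_iv h, div_ofReal_re, conj_re, ze_re]
      · rw [ze_im, div_ofReal_im, conj_im, ze_im]
        change 1 * (-p.2.2 / gau p) = _
        ring
    rw [e1, gau_iv h, ofReal_inv]
    field_simp
    rw [mul_comm, mul_conj, nsq_ze]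
  refine Prod.ext ?_ (Prod.ext ?_ ?_)
  · change ze 1 (iv p) / (gau (iv p) : ℂ) * (ze 1 p / (gau p : ℂ) * p.1) = p.1
    rw [← mul_assoc, e, one_mul]
  · change ze 1 (iv p) / (gau (iv p) : ℂ) * (ze 1 p / (gau p : ℂ) * p.2.1) = p.2.1
    rw [← mul_assoc, e, one_mul]
  · change -(-p.2.2 / gau p) / gau (iv p) = p.2.2
    rw [gau_iv h]
    field_simp

theorem LH_iv {p : H} (h : p ≠ 0) : LH iv p := by
  have cl : ∀ {q : H}, q ≠ 0 → ContDiffAt ℝ ∞ (fun q => ze 1 q / (gau q : ℂ)) q := fun {q} hq =>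
    cd_div (cd_ze (c := fun _ => 1) contDiffAt_const) (cd_of (cd_gau q))
      (ofReal_ne_zero.2 (gau_pos hq).ne')
  have cT : ∀ {q : H}, q ≠ 0 → ContDiffAt ℝ ∞ (fun q : H => -q.2.2 / gau q) q := fun {q} hq =>
    (cd3 q).neg.div (cd_gau q) (gau_pos hq).ne'
  have g0 := (gau_pos h).ne'
  have nl : normSq (ze 1 p / (gau p : ℂ)) = (gau p)⁻¹ := by
    rw [normSq_div, nsq_ze, normSq_ofReal]
    field_simp
  refine LD.of_vec (cd_sc (cl h) (cT h)) (cd_sc (cl (iv_ne h)) (cT (iv_ne h)))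
    ((eventually_ne_nhds h).mono fun q hq => iv_iv hq)
    ((eventually_ne_nhds (iv_ne h)).mono fun q hq => iv_iv hq)
    (c := normSq (ze 1 p / (gau p : ℂ))) (nl ▸ inv_pos.2 (gau_pos h)) fun v => ?_
  have dz : HasDerivAt (fun s : ℝ => ze 1 (p + s • v)) ((rd p v : ℂ) + ((1 * v.2.2 : ℝ) : ℂ) * I)
      0 := (hd_rho p v).ofReal_comp.add (((hd3 p v).const_mul 1).ofReal_comp.mul_const I)
  have dl := dz.div (hd_gau p v).ofReal_comp (by simpa using g0)
  have dT := (hd3 p v).neg.div (hd_gau p v) (by simpa using g0)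
  refine aH_sc (cl h) (cT h) dl dT ?_
  rw [nl]
  simp only [zero_smul, add_zero, map_div₀, conj_ofReal, ← ofReal_pow, div_mul_div_comm,
    ← ofReal_mul, div_ofReal_im, Pi.neg_apply]
  simp only [mul_im, mul_re, sub_re, sub_im, add_re, add_im, conj_re, conj_im, ze_re, ze_im,
    ofReal_re, ofReal_im, I_re, I_im]
  field_simp
  rw [gau]
  ring

end
end Pool.Agent.Lib.MP_efe47c_gt
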