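import Mathlib

/-! Germs of diffeomorphisms which pull a form back to a positive multiple of a form. -/

namespace Pool.Agent.Lib.MP_efe47c_gt
open Set Filter Topology
open scoped Manifold ContDiff

noncomputable section

variable {E F G : Type} [NormedAddCommGroup E] [NormedSpace ℝ E] [NormedAddCommGroup F]
  [NormedSpace ℝ F] [NormedAddCommGroup G] [NormedSpace ℝ G]
  {M N P : Type} [TopologicalSpace M] [ChartedSpace E M] [TopologicalSpace N] [ChartedSpace F N]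
  [TopologicalSpace P] [ChartedSpace G P]

variable (E F) in
/-- The differential as a plain map between the model spaces. -/
def D (f : M → N) (x : M) : E →L[ℝ] F := mfderiv 𝓘(ℝ, E) 𝓘(ℝ, F) f x

variable (E F) in
abbrev Sm (f : M → N) (x : M) : Prop := ContMDiffAt 𝓘(ℝ, E) 𝓘(ℝ, F) ∞ f x

theorem Sm.md {f : M → N} {x : M} (h : Sm E F f x) : MDifferentiableAt 𝓘(ℝ, E) 𝓘(ℝ, F) f x :=
  h.mdifferentiableAt (by simp)

theorem D_comp {f : M → N} {g : N → P} {x : M} (hg : Sm F G g (f x)) (hf : Sm E F f x) (v : E) :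
    D E G (fun y => g (f y)) x v = D F G g (f x) (D E F f x v) := by
  have := mfderiv_comp x hg.md hf.md
  exact congrArg (fun L : TangentSpace 𝓘(ℝ, E) x →L[ℝ] TangentSpace 𝓘(ℝ, G) (g (f x)) => L v) this

theorem D_congr {f g : M → N} {x : M} (h : f =ᶠ[𝓝 x] g) : D E F f x = D E F g x :=
  h.mfderiv_eq

theorem D_id (x : M) (v : E) : D E E (fun y : M => y) x v = v := by
  have := mfderiv_id (I := 𝓘(ℝ, E)) (x := x)
  exact congrArg (fun L : TangentSpace 𝓘(ℝ, E) x →L[ℝ] TangentSpace 𝓘(ℝ, E) x => L v) this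

theorem D_vec (f : E → F) (x : E) : D E F f x = fderiv ℝ f x := mfderiv_eq_fderiv

/-- `f` is near `x` a diffeomorphism and pulls `β` back at `x` to a positive multiple of `α`. -/
structure LD (α : M → E → ℝ) (β : N → F → ℝ) (f : M → N) (x : M) : Prop where
  sm : Sm E F f x
  inv : ∃ g : N → M, Sm F E g (f x) ∧ (∀ᶠ y in 𝓝 x, g (f y) = y) ∧ ∀ᶠ z in 𝓝 (f x), f (g z) = z
  cf : ∃ c : ℝ, 0 < c ∧ ∀ v, β (f x) (D E F f x v) = c * α x v

variable {α : M → E → ℝ} {β : N → F → ℝ} {γ : P → G → ℝ} {f f' : M → N} {x : M}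

theorem LD.cont (h : LD α β f x) : ContinuousAt f x := h.sm.continuousAt

theorem LD.refl (α : M → E → ℝ) (x : M) : LD α α (fun y => y) x :=
  ⟨contMDiffAt_id, ⟨fun y => y, contMDiffAt_id, .of_forall fun _ => rfl, .of_forall fun _ => rfl⟩,
    1, one_pos, fun v => by rw [D_id, one_mul]⟩

theorem LD.congr (h : LD α β f x) (e : f' =ᶠ[𝓝 x] f) : LD α β f' x := by
  have e0 : f' x = f x := e.eq_of_nhds
  obtain ⟨g, g1, g2, g3⟩ := h.inv
  obtain ⟨c, c0, hc⟩ := h.cf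
  refine ⟨h.sm.congr_of_eventuallyEq e, ⟨g, e0 ▸ g1, ?_, ?_⟩, c, c0, fun v => ?_⟩
  · filter_upwards [g2, e] with y h1 h2 using by rw [h2, h1]
  · rw [e0]
    have t : Tendsto g (𝓝 (f x)) (𝓝 x) := by
      have := g1.continuousAt.tendsto
      rwa [g2.self_of_nhds] at this
    filter_upwards [g3, t.eventually e] with z h1 h2 using by rw [h2, h1]
  · rw [D_congr e, e0, hc]

theorem LD.comp {g : N → P} (hg : LD β γ g (f x)) (hf : LD α β f x) :
    LD α γ (fun y => g (f y)) x := by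
  obtain ⟨u, u1, u2, u3⟩ := hf.inv
  obtain ⟨w, w1, w2, w3⟩ := hg.inv
  obtain ⟨c, c0, hc⟩ := hf.cf
  obtain ⟨d, d0, hd⟩ := hg.cf
  have e : w (g (f x)) = f x := w2.self_of_nhds
  refine ⟨hg.sm.comp x hf.sm, ⟨fun z => u (w z), ?_, ?_, ?_⟩, d * c, mul_pos d0 c0, fun v => ?_⟩
  · exact ContMDiffAt.comp (g := u) (f := w) _ (e.symm ▸ u1) w1
  · filter_upwards [u2, hf.cont.tendsto.eventually w2] with y h1 h2 using by rw [h2, h1]
  · have t : Tendsto w (𝓝 (g (f x))) (𝓝 (f x)) := by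
      have := w1.continuousAt.tendsto
      rwa [e] at this
    filter_upwards [w3, t.eventually u3] with z h1 h2 using by rw [h2, h1]
  · rw [D_comp hg.sm hf.sm, hd, hc, mul_assoc]

theorem LD.comp' {g : N → P} {y : N} (hg : LD β γ g y) (hf : LD α β f x) (e : f x = y) :
    LD α γ (fun y => g (f y)) x := LD.comp (e ▸ hg) hf

theorem LD.symm (h : LD α β f x) {g : N → M} (hg : ∀ᶠ y in 𝓝 x, g (f y) = y) :
    LD β α g (f x) := by
  obtain ⟨u, u1, u2, u3⟩ := h.inv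
  obtain ⟨c, c0, hc⟩ := h.cf
  have e : u (f x) = x := u2.self_of_nhds
  have t : Tendsto u (𝓝 (f x)) (𝓝 x) := by
    have := u1.continuousAt.tendsto
    rwa [e] at this
  have gu : g =ᶠ[𝓝 (f x)] u := by
    filter_upwards [u3, t.eventually hg] with z h1 h2 using by rw [← h2, h1]
  refine LD.congr ⟨u1, ⟨f, e.symm ▸ h.sm, u3, e.symm ▸ u2⟩, c⁻¹, inv_pos.2 c0, fun w => ?_⟩ gu
  have h1 : D E F f (u (f x)) (D F E u (f x) w) = w := by
    rw [← D_comp (e.symm ▸ h.sm) u1, D_congr (g := fun z => z) u3, D_id]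
  rw [e] at h1 ⊢
  have := hc (D F E u (f x) w)
  rw [h1] at this
  rw [this]
  field_simp

theorem LD.symm' (h : LD α β f x) {g : N → M} {y : N} (hg : ∀ᶠ y in 𝓝 x, g (f y) = y)
    (e : f x = y) : LD β α g y := e ▸ h.symm hg

theorem LD.image_mem (h : LD α β f x) {s : Set M} (hs : s ∈ 𝓝 x) : f '' s ∈ 𝓝 (f x) := by
  obtain ⟨u, u1, u2, u3⟩ := h.inv
  have t : Tendsto u (𝓝 (f x)) (𝓝 x) := by
    have := u1.continuousAt.tendsto
    rwa [u2.self_of_nhds] at this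
  filter_upwards [u3, t.eventually hs] with z h1 h2 using ⟨u z, h2, h1⟩

theorem isOpen_image_of_LD {s : Set M} (hs : IsOpen s) (h : ∀ x ∈ s, LD α β f x) :
    IsOpen (f '' s) := by
  rw [isOpen_iff_mem_nhds]
  rintro _ ⟨x, hx, rfl⟩
  exact (h x hx).image_mem (hs.mem_nhds hx)

theorem contOn_of_LD {s : Set M} (h : ∀ x ∈ s, LD α β f x) : ContinuousOn f s :=
  fun x hx => (h x hx).cont.continuousWithinAt

/-- Maps between vector spaces. -/
theorem LD.of_vec {α : E → E → ℝ} {β : F → F → ℝ} {f : E → F} {g : F → E} {x : E}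
    (hf : ContDiffAt ℝ ∞ f x) (hg : ContDiffAt ℝ ∞ g (f x)) (h1 : ∀ᶠ y in 𝓝 x, g (f y) = y)
    (h2 : ∀ᶠ z in 𝓝 (f x), f (g z) = z) {c : ℝ} (c0 : 0 < c)
    (hc : ∀ v, β (f x) (fderiv ℝ f x v) = c * α x v) : LD α β f x :=
  ⟨hf.contMDiffAt, ⟨g, hg.contMDiffAt, h1, h2⟩, c, c0, fun v => by rw [D_vec]; exact hc v⟩

end
end Pool.Agent.Lib.MP_efe47c_gt
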