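import Pool.Agent.Lib.MP_efe47c_gt.Sph

/-! A summand of the standard sphere is standard off one point. -/

namespace Pool.Agent.Lib.MP_efe47c_gt
open Set Filter Topology Metric Function Complex
open scoped ContDiff Manifold ComplexConjugate

noncomputable section

variable {M N : Type} [TopologicalSpace M] [ChartedSpace R5 M] [TopologicalSpace N]
  [ChartedSpace R5 N]

/-- A form as a plain function. -/
def fn (α : Form R5 M) : M → R5 → ℝ := fun x v => α x v

theorem fn_std : fn std = aS := rfl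

theorem Contacto.ld {α : Form R5 M} {β : Form R5 N} {f : PD R5 M N}
    (h : Contacto α β f) {x : M} (hx : x ∈ f.source) : LD (fn α) (fn β) f x :=
  ⟨f.contMDiffOn_toFun.contMDiffAt (f.open_source.mem_nhds hx),
    ⟨f.invFun, f.contMDiffOn_invFun.contMDiffAt (f.open_target.mem_nhds (f.map_source hx)),
      by filter_upwards [f.open_source.mem_nhds hx] with y hy using f.left_inv hy,
      by filter_upwards [f.open_target.mem_nhds (f.map_source hx)] with y hy using f.right_inv hy⟩,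
    h x hx⟩

theorem exists_pd [Nonempty M] {α : Form R5 M} {β : Form R5 N} {f : M → N} {U : Set M} {V : Set N}
    (oU : IsOpen U) (b : BijOn f U V) (h : ∀ x ∈ U, LD (fn α) (fn β) f x) :
    ∃ F : PD R5 M N, F.source = U ∧ F.target = V ∧ (F : M → N) = f ∧
      Contacto α β F := by
  refine ⟨⟨b.toPartialEquiv f U V, oU, ?_, fun x hx => (h x hx).sm.contMDiffWithinAt,
    fun y hy => ?_⟩, rfl, rfl, rfl, fun x hx => (h x hx).cf⟩
  · change IsOpen V
    rw [← b.image_eq]
    exact isOpen_image_of_LD oU h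
  · obtain ⟨x, hx, rfl⟩ := b.surjOn hy
    refine ((h x hx).symm (g := invFunOn f U) ?_).sm.contMDiffWithinAt
    filter_upwards [oU.mem_nhds hx] with y hy using b.invOn_invFunOn.1 hy

abbrev U0 : C3 ≃ₗᵢ[ℂ] C3 := LinearIsometryEquiv.refl ℂ C3

theorem kap_re (h : H) : ((kap U0 h : C3) 0).re = (1 - gau h) / ((1 + rho h) ^ 2 + h.2.2 ^ 2) := by
  change (2 * cu h - 1).re = _
  have := (den_pos h).ne'
  rw [sub_re, one_re, show (2 * cu h).re = 2 * (cu h).re by simp, cu_re, gau]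
  field_simp
  ring

theorem den_ge (h : H) : 1 ≤ (1 + rho h) ^ 2 + h.2.2 ^ 2 := by
  nlinarith [rho_nn h, sq_nonneg h.2.2]

theorem kap_in {ε : ℝ} (e0 : 0 < ε) {h : H} (hh : gau h < 1 + ε) : -ε < ((kap U0 h : C3) 0).re := by
  rw [kap_re, lt_div_iff₀ (den_pos h)]
  nlinarith [den_ge h]

theorem kap_out {ε : ℝ} (e0 : 0 < ε) {h : H} (hh : ε ≤ ((kap U0 h : C3) 0).re) :
    gau h ≤ 1 - ε := by
  rw [kap_re, le_div_iff₀ (den_pos h)] at hh
  nlinarith [den_ge h]

theorem ne_pole {p : S5} (h : -1 < ((p : C3) 0).re) : p ≠ pole U0 := pole_iff.2 fun e => by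
  have : (1 + (p : C3) 0).re = 0 := congrArg re e
  simp at this
  linarith

theorem bij_kap (U : C3 ≃ₗᵢ[ℂ] C3) : BijOn (kap U) univ {pole U}ᶜ :=
  ⟨fun h _ => kap_ne h, (LeftInverse.injective cay_kap).injOn,
    fun p hp => ⟨cay U p, trivial, kap_cay hp⟩⟩

theorem Piece.main [T2Space M] [CompactSpace M] {α : Form R5 M} {ε : ℝ}
    {e : PD R5 S5 M} {j : PD R5 M S5}
    (e0 : 0 < ε) (e1 : ε < 1) (h : Piece std (fun p => ((p : C3) 0).re) ε α std e j) :
    OffPoint α std := by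
  obtain ⟨he, hj, se, sj⟩ := h
  set e' : H → M := fun h => e (kap U0 h) with he'
  have ms : ∀ h, gau h < 1 + ε → kap U0 h ∈ e.source := fun h hh => se ▸ kap_in e0 hh
  have le : ∀ h, gau h < 1 + ε → LD aH (fn α) e' h := fun h hh => (he.ld (ms h hh)).comp (LD_kap h)
  have ie : InjOn e' {h | gau h < 1 + ε} := fun p hp q hq h =>
    LeftInverse.injective cay_kap (e.injOn (ms p hp) (ms q hq) h)
  have oB : IsOpen (e' '' {h | gau h < 1 - ε / 2}) :=
    isOpen_image_of_LD (isOpen_lt cont_gau continuous_const) fun h (hh : gau h < _) =>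
      le h (by linarith)
  have sK : (e' '' {h | gau h < 1 - ε / 2})ᶜ ⊆ j.source := by
    rw [sj]
    refine compl_subset_compl.2 ?_
    rintro _ ⟨p, hp, rfl⟩
    have hp' : ε ≤ ((p : C3) 0).re := hp
    have k := kap_cay (ne_pole (p := p) (by linarith))
    refine ⟨cay U0 p, ?_, congrArg e k⟩
    have := kap_out e0 (h := cay U0 p) (k.symm ▸ hp')
    change gau _ < _
    linarith
  obtain ⟨h₁, g₁⟩ : ∃ h₁ : H, gau h₁ = 1 - 3 * ε / 4 :=
    ⟨(0, 0, √(1 - 3 * ε / 4)), by simp [gau, rho, Real.sq_sqrt (show 0 ≤ 1 - 3 * ε / 4 by linarith)]⟩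
  have m₁ : e' h₁ ∈ j.source := by
    rw [sj]
    rintro ⟨p, hp, eq⟩
    have hp' : ε ≤ ((p : C3) 0).re := hp
    rw [e.injOn (se ▸ (show -ε < ((p : C3) 0).re by linarith)) (ms h₁ (by linarith)) eq] at hp'
    linarith [kap_out e0 hp']
  obtain ⟨U, hU⟩ := exists_pole (j (e' h₁))
  have nK : ∀ m ∈ (e' '' {h | gau h < 1 - ε / 2})ᶜ, j m ≠ pole U := fun m hm eq =>
    hm ⟨h₁, show gau h₁ < _ by linarith, (j.injOn (sK hm) m₁ (eq.trans hU)).symm⟩
  have lJ : ∀ m ∈ (e' '' {h | gau h < 1 - ε / 2})ᶜ, LD (fn α) aH (fun m => cay U (j m)) m :=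
    fun m hm => (LD_cay (nK m hm)).comp (hj.ld (sK hm))
  have sW : (e' '' {h | gau h ≤ 1 - ε / 2})ᶜ ⊆ (e' '' {h | gau h < 1 - ε / 2})ᶜ :=
    compl_subset_compl.2 (image_mono fun h (hh : gau h < _) => hh.le)
  obtain ⟨m₀, Ψ, b, l⟩ := core (a := 1 - ε / 2) (b := 1 + ε) (J := fun m => cay U (j m))
    (by linarith) (by linarith) (by linarith) le ie (fun m hm => lJ m (sW hm))
    (fun m hm m' hm' eq => j.injOn (sK (sW hm)) (sK (sW hm')) (by
      rw [← kap_cay (nK m (sW hm)), ← kap_cay (nK m' (sW hm'))]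
      exact congrArg (kap U) eq))
    (oB.isClosed_compl.isCompact.image_of_continuousOn (contOn_of_LD lJ))
    (fun m hm => mem_image_of_mem _ (sW hm))
  have : Nonempty M := ⟨m₀⟩
  obtain ⟨F, f1, f2, -, f4⟩ := exists_pd (α := α) (β := std) (f := fun m => kap U0 (Ψ m))
    isOpen_compl_singleton ((bij_kap U0).comp b) fun m hm => (LD_kap _).comp (l m hm)
  exact ⟨m₀, _, F, f1, f2, f4⟩

end
end Pool.Agent.Lib.MP_efe47c_gt
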