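import Pool.Agent.Lib.MP_efe47c_gt.Swi

/-! The swindle for a compact manifold with a chart at infinity. -/

namespace Pool.Agent.Lib.MP_efe47c_gt
open Set Filter Topology Cardinal Metric
open scoped ContDiff Manifold

noncomputable section

theorem ext_bij {X Y : Type} {f : X → Y} {U V : Set X} {T : Set Y} (hi : InjOn f U)
    (hm : MapsTo f U T) (hd : Disjoint U V) (hc : #V = #(T \ f '' U : Set Y)) :
    ∃ g : X → Y, BijOn g (U ∪ V) T ∧ EqOn g f U := by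
  classical
  obtain ⟨b⟩ := Cardinal.eq.1 hc
  let g : X → Y := fun x => if h : x ∈ V then (b ⟨x, h⟩ : Y) else f x
  have e : EqOn g f U := fun x hx => dif_neg (disjoint_left.1 hd hx)
  have e' : ∀ x (h : x ∈ V), g x = b ⟨x, h⟩ := fun x h => dif_pos h
  refine ⟨g, ⟨?_, ?_, fun y hy => ?_⟩, e⟩
  · rintro x (hx | hx)
    · rw [e hx]; exact hm hx
    · rw [e' x hx]; exact (b _).2.1
  · rintro x (hx | hx) y (hy | hy) h
    · exact hi hx hy (by rwa [e hx, e hy] at h)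
    · rw [e hx, e' y hy] at h
      exact ((b _).2.2 ⟨x, hx, h⟩).elim
    · rw [e hy, e' x hx] at h
      exact ((b _).2.2 ⟨y, hy, h.symm⟩).elim
    · rw [e' x hx, e' y hy] at h
      exact congrArg Subtype.val (b.injective (Subtype.ext h))
  · by_cases h : y ∈ f '' U
    · obtain ⟨x, hx, rfl⟩ := h
      exact ⟨x, Or.inl hx, e hx⟩
    · refine ⟨b.symm ⟨y, hy, h⟩, Or.inr (b.symm _).2, ?_⟩
      rw [e' _ (b.symm _).2]
      simp

theorem closed_img1 {X Y : Type} [TopologicalSpace X] [TopologicalSpace Y] [T2Space Y] {e : X → Y}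
    {y₀ : Y} {Z : Set X} (hZ : IsClosed Z) (he : ContinuousOn e Z)
    (T : Tendsto e (cocompact X) (𝓝 y₀)) : IsClosed (e '' Z ∪ {y₀}) := by
  rw [← isOpen_compl_iff, isOpen_iff_mem_nhds]
  intro y hy
  rw [compl_union] at hy ⊢
  obtain ⟨U, V, oU, oV, hU, hV, d⟩ := t2_separation (show y ≠ y₀ from hy.2)
  obtain ⟨K, cK, hK⟩ := mem_cocompact.1 (T (oV.mem_nhds hV))
  have c : IsClosed (e '' (K ∩ Z)) :=
    ((cK.inter_right hZ).image_of_continuousOn (he.mono inter_subset_right)).isClosed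
  filter_upwards [oU.mem_nhds hU,
    c.isOpen_compl.mem_nhds fun h => hy.1 (image_mono inter_subset_right h)] with z h1 h2
  refine ⟨?_, fun h => disjoint_left.1 d h1 (h ▸ hV)⟩
  rintro ⟨x, hx, rfl⟩
  by_cases h : x ∈ K
  · exact h2 ⟨x, ⟨h, hx⟩, rfl⟩
  · exact disjoint_left.1 d h1 (hK h)

theorem closed_img2 {X Y : Type} [TopologicalSpace X] [TopologicalSpace Y] [T2Space Y]
    [WeaklyLocallyCompactSpace Y] {J : X → Y} {x₀ : X} {K : Set X} (hK : IsCompact K)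
    (hJ : ContinuousOn J (K \ {x₀})) (T : Tendsto J (𝓝[≠] x₀) (cocompact Y)) :
    IsClosed (J '' (K \ {x₀})) := by
  rw [← isOpen_compl_iff, isOpen_iff_mem_nhds]
  intro y hy
  obtain ⟨C, cC, hC⟩ := exists_compact_mem_nhds y
  obtain ⟨V, oV, hV, sV⟩ := mem_nhdsWithin.1 (T cC.compl_mem_cocompact)
  have s : K \ V ⊆ K \ {x₀} := fun x hx => ⟨hx.1, fun h => hx.2 (h ▸ hV)⟩
  have c : IsClosed (J '' (K \ V)) := ((hK.diff oV).image_of_continuousOn (hJ.mono s)).isClosed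
  filter_upwards [hC, c.isOpen_compl.mem_nhds fun h => hy (image_mono s h)] with z h1 h2
  rintro ⟨x, hx, rfl⟩
  by_cases h : x ∈ V
  · exact sV ⟨h, hx.2⟩ h1
  · exact h2 ⟨x, ⟨hx.1, h⟩, rfl⟩

variable {E : Type} [NormedAddCommGroup E] [NormedSpace ℝ E] {M : Type} [TopologicalSpace M]
  [ChartedSpace E M] [T2Space M] [CompactSpace M]

structure Dat (α : M → E → ℝ) (m₀ : M) (e : H → M) (J : M → H) (D₁ D₂ : Set H) (L : ℝ) : Prop where
  L0 : 0 < L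
  c1 : IsClosed D₁
  c2 : IsCompact D₂
  d1 : D₁ ⊆ N1 L
  d2 : D₂ ⊆ N2 L
  he : ∀ p ∉ D₁, LD aH α e p
  ie : InjOn e D₁ᶜ
  ne : ∀ p ∉ D₁, e p ≠ m₀
  hJ : ∀ m ∈ (e '' D₂ ∪ {m₀})ᶜ, LD α aH J m
  iJ : InjOn J (e '' D₂ ∪ {m₀})ᶜ
  id : ∀ p : H, L ≤ |p.2.2| → J (e p) = p
  T1 : Tendsto e (cocompact H) (𝓝 m₀)
  T2 : Tendsto J (𝓝[≠] m₀) (cocompact H)

variable {α : M → E → ℝ} {m₀ : M} {e : H → M} {J : M → H} {D₁ D₂ : Set H} {L : ℝ}

omit [T2Space M] [CompactSpace M] in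
theorem Dat.n2 (h : Dat α m₀ e J D₁ D₂ L) : N2 L ⊆ D₁ᶜ := fun p hp m => by
  have := (h.d1 m).1
  have := hp.1
  linarith

omit [T2Space M] [CompactSpace M] in
theorem Dat.mem (h : Dat α m₀ e J D₁ D₂ L) {p : H} (h1 : p ∉ D₁) (h2 : p ∉ D₂) :
    e p ∈ (e '' D₂ ∪ {m₀})ᶜ := by
  rintro (⟨q, hq, eq⟩ | eq)
  · exact h2 (h.ie (h.n2 (h.d2 hq)) h1 eq ▸ hq)
  · exact h.ne p h1 eq

theorem Dat.swindle1 (h : Dat α m₀ e J D₁ D₂ L) (i1 : #D₁ = #H) (i2 : #D₂ = #H)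
    (j1 : #H ≤ #((e '' D₁ᶜ ∪ {m₀})ᶜ : Set M)) (j2 : #((J '' (e '' D₂ ∪ {m₀})ᶜ)ᶜ : Set H) = #H) :
    ∃ Ψ : M → H, BijOn Ψ {m₀}ᶜ univ ∧ ∀ m ≠ m₀, LD α aH Ψ m := by
  have s21 : D₂ ⊆ D₁ᶜ := h.d2.trans h.n2
  set W : Set M := (e '' D₂ ∪ {m₀})ᶜ with hW
  have oW : IsOpen W := by
    refine (IsClosed.union ?_ isClosed_singleton).isOpen_compl
    exact (h.c2.image_of_continuousOn (contOn_of_LD fun p hp => h.he p (s21 hp))).isClosed
  have sA : (e '' D₁ᶜ ∪ {m₀})ᶜ ⊆ W := compl_subset_compl.2 (union_subset_union_left _ (image_mono s21))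
  obtain ⟨e', be, ee⟩ := ext_bij (f := e) (U := D₁ᶜ) (V := D₁) (T := {m₀}ᶜ) h.ie
    (fun p hp => h.ne p hp) disjoint_compl_left (by
      have : ({m₀}ᶜ \ e '' D₁ᶜ : Set M) = (e '' D₁ᶜ ∪ {m₀})ᶜ := by
        rw [compl_union, inter_comm]; rfl
      rw [this, i1]
      refine le_antisymm j1 ?_
      rw [← mk_image_eq_of_injOn J _ (h.iJ.mono sA)]
      exact mk_set_le _)
  obtain ⟨j', bj, ej⟩ := ext_bij (f := J) (U := W) (V := e '' D₂) (T := univ) h.iJ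
    (mapsTo_univ _ _) (disjoint_left.2 fun m hm h' => hm (Or.inl h')) (by
      rw [← compl_eq_univ_sdiff, j2, mk_image_eq_of_injOn e _ (h.ie.mono s21), i2])
  rw [compl_union_self] at be
  have eW : W ∪ e '' D₂ = {m₀}ᶜ := by
    refine Subset.antisymm ?_ fun m hm => ?_
    · rintro m (hm | ⟨p, hp, rfl⟩)
      · exact fun h' => hm (Or.inr h')
      · exact h.ne p (s21 hp)
    · by_cases h' : m ∈ e '' D₂
      · exact Or.inr h'
      · exact Or.inl fun h'' => h''.elim h' hm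
  rw [eW] at bj
  let φ : H ≃ H := Equiv.ofBijective (j' ∘ e') (bijOn_univ.1 (bj.comp be))
  have eφ : ∀ p, φ p = j' (e' p) := fun _ => rfl
  have n0 : ∀ p, e' p ∈ ({m₀}ᶜ : Set M) := fun p => be.mapsTo (mem_univ p)
  have ie' : ∀ {p q}, e' p = e' q → p = q := fun hh => be.injOn (mem_univ _) (mem_univ _) hh
  have eφ' : ∀ p, p ∉ D₁ → p ∉ D₂ → φ p = J (e p) := fun p h1 h2 => by
    rw [eφ, ee h1, ej (h.mem h1 h2)]
  have sW : W ⊆ {m₀}ᶜ := eW ▸ subset_union_left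
  have s1 : (N1 L)ᶜ ⊆ D₁ᶜ := compl_subset_compl.2 h.d1
  have s2 : D₂ ⊆ (N1 L)ᶜ := fun p hp m => by
    have := (h.d2 hp).1
    have := m.1
    linarith
  have sB : (e '' (N1 L)ᶜ ∪ {m₀})ᶜ ⊆ W :=
    compl_subset_compl.2 (union_subset_union_left _ (image_mono s2))
  have sC : (e '' N2 L)ᶜ \ {m₀} ⊆ W := fun m hm h' =>
    h'.elim (fun h'' => hm.1 (image_mono h.d2 h'')) hm.2
  have oN : IsOpen (e '' N2 L) := isOpen_image_of_LD (open_N2 L) fun p hp => h.he p (h.n2 hp)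
  obtain ⟨K, k1, k2⟩ := swindle_H φ (L := L) (D₁ := D₁) (D₂ := D₂)
    (O₁ := J '' (e '' (N1 L)ᶜ ∪ {m₀})ᶜ) (O₂ := (J '' ((e '' N2 L)ᶜ \ {m₀}))ᶜ)
    (fun p hp => by
      rw [eφ' p (fun m => (h.d1 m).2.not_ge hp) (fun m => (h.d2 m).2.not_ge hp), h.id p hp])
    h.L0 h.d1 h.d2
    (isOpen_image_of_LD (closed_img1 (open_N1 L).isClosed_compl
      (contOn_of_LD fun p hp => h.he p (s1 hp)) h.T1).isOpen_compl fun m hm => h.hJ m (sB hm))
    (closed_img2 oN.isClosed_compl.isCompact (contOn_of_LD fun m hm => h.hJ m (sC hm))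
      h.T2).isOpen_compl
    (fun p hp => by
      have : e' p ∈ (e '' (N1 L)ᶜ ∪ {m₀})ᶜ := by
        rintro (⟨q, hq, eq⟩ | eq)
        · rw [← ee (s1 hq)] at eq
          exact s1 hq (ie' eq ▸ hp)
        · exact n0 p eq
      exact ⟨e' p, this, (ej (sB this)).symm⟩)
    (fun p hp => by
      rintro ⟨m, hm, eq⟩
      rw [← ej (sC hm), eφ] at eq
      rw [bj.injOn hm.2 (n0 p) eq, ee (s21 hp)] at hm
      exact hm.1 ⟨p, h.d2 hp, rfl⟩)
    (fun p hp => by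
      obtain ⟨m, hm, eq⟩ := hp
      rw [← ej (sB hm), eφ] at eq
      by_contra hn
      rw [bj.injOn (sW (sB hm)) (n0 p) eq, ee (s1 hn)] at hm
      exact hm (Or.inl ⟨p, hn, rfl⟩))
    (fun p hp => by
      by_contra hn
      have : e' p ∈ (e '' N2 L)ᶜ \ {m₀} := by
        refine ⟨?_, n0 p⟩
        rintro ⟨q, hq, eq⟩
        rw [← ee (h.n2 hq)] at eq
        exact hn (ie' eq ▸ hq)
      exact hp ⟨e' p, this, (ej (sC this)).symm⟩)
    (fun p h1 h2 => by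
      refine ((h.hJ _ (h.mem h1 h2)).comp (h.he p h1)).congr ?_
      filter_upwards [h.c1.isOpen_compl.mem_nhds h1, h.c2.isClosed.isOpen_compl.mem_nhds h2]
        with q a b using eφ' q a b)
  refine ⟨fun m => K (j' m), K.bijective.bijOn_univ.comp bj, fun m hm => ?_⟩
  by_cases hm' : m ∈ e '' N2 L
  · obtain ⟨p, hp, rfl⟩ := hm'
    refine (h.he p (h.n2 hp)).symm ?_
    filter_upwards [(open_N2 L).mem_nhds hp] with q hq
    rw [← ee (h.n2 hq), ← eφ, k2 q hq]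
  · have mW : m ∈ W := sC ⟨hm', hm⟩
    have ev : j' =ᶠ[𝓝 m] J := by
      filter_upwards [oW.mem_nhds mW] with x hx using ej hx
    refine (k1 _ fun h2 => ?_).comp ((h.hJ m mW).congr ev)
    have e1 : j' (e' (φ.symm (j' m))) = j' m := φ.apply_symm_apply _
    have e2 := bj.injOn (n0 _) hm e1
    rw [ee (s21 h2)] at e2
    exact hm' ⟨_, h.d2 h2, e2⟩

theorem Dat.swindle (h : Dat α m₀ e J D₁ D₂ L) :
    ∃ Ψ : M → H, BijOn Ψ {m₀}ᶜ univ ∧ ∀ m ≠ m₀, LD α aH Ψ m := by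
  have L0 := h.L0
  have bl : ∀ (a : ℝ) (p : H), p ∈ closedBall (((a : ℂ), 0, L + 1) : H) (1 / 10) →
      |p.1.re - a| ≤ 1 / 10 ∧ L ≤ |p.2.2| ∧ |p.2.2| < L + 2 := by
    intro a p hp
    rw [mem_closedBall, Prod.dist_eq, Prod.dist_eq, max_le_iff, max_le_iff, Real.dist_eq,
      abs_le] at hp
    refine ⟨?_, le_abs.2 (Or.inl (by linarith [hp.2.2.1])), abs_lt.2 ⟨by linarith [hp.2.2.1],
      by linarith [hp.2.2.2]⟩⟩
    have := (Complex.abs_re_le_norm (p.1 - a)).trans (dist_eq_norm p.1 a ▸ hp.1)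
    simpa using this
  set B₁ := closedBall ((((0 : ℝ) : ℂ), 0, L + 1) : H) (1 / 10)
  set B₂ := closedBall ((((-1 : ℝ) : ℂ), 0, L + 1) : H) (1 / 10)
  have n1 : ∀ p : H, L ≤ |p.2.2| → p ∉ D₁ := fun p hp m => (h.d1 m).2.not_ge hp
  have n2 : ∀ p : H, L ≤ |p.2.2| → p ∉ D₂ := fun p hp m => (h.d2 m).2.not_ge hp
  have s1 : (D₁ ∪ B₁)ᶜ ⊆ D₁ᶜ := compl_subset_compl.2 subset_union_left
  have s2 : (e '' (D₂ ∪ B₂) ∪ {m₀})ᶜ ⊆ (e '' D₂ ∪ {m₀})ᶜ :=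
    compl_subset_compl.2 (union_subset_union_left _ (image_mono subset_union_left))
  have b1 : B₁ ∈ 𝓝 _ := closedBall_mem_nhds _ (by norm_num)
  have b2 : B₂ ∈ 𝓝 _ := closedBall_mem_nhds _ (by norm_num)
  have h' : Dat α m₀ e J (D₁ ∪ B₁) (D₂ ∪ B₂) (L + 2) :=
    ⟨by linarith, h.c1.union isClosed_closedBall, h.c2.union (isCompact_closedBall _ _),
      union_subset (fun p hp => ⟨(h.d1 hp).1, by linarith [(h.d1 hp).2]⟩) fun p hp =>
        ⟨by linarith [(abs_le.1 (bl 0 p hp).1).1], (bl 0 p hp).2.2⟩,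
      union_subset (fun p hp => ⟨(h.d2 hp).1, by linarith [(h.d2 hp).2]⟩) fun p hp =>
        ⟨by linarith [(abs_le.1 (bl (-1) p hp).1).2], (bl (-1) p hp).2.2⟩,
      fun p hp => h.he p (s1 hp), h.ie.mono s1, fun p hp => h.ne p (s1 hp),
      fun m hm => h.hJ m (s2 hm), h.iJ.mono s2, fun p hp => h.id p (by linarith), h.T1, h.T2⟩
  refine h'.swindle1 (cardinal_eq_of_mem_nhds ℝ (mem_of_superset b1 subset_union_right))
    (cardinal_eq_of_mem_nhds ℝ (mem_of_superset b2 subset_union_right)) ?_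
    (cardinal_eq_of_mem_nhds ℝ (mem_of_superset b2 ?_))
  · have s : B₁ ⊆ D₁ᶜ := fun p hp => n1 p (bl 0 p hp).2.1
    rw [← cardinal_eq_of_mem_nhds ℝ b1, ← mk_image_eq_of_injOn e _ (h.ie.mono s)]
    refine mk_le_mk_of_subset ?_
    rintro _ ⟨p, hp, rfl⟩ (⟨q, hq, eq⟩ | eq)
    · exact hq (Or.inr (h.ie (s1 hq) (s hp) eq ▸ hp))
    · exact h.ne p (s hp) eq
  · rintro p hp ⟨m, hm, eq⟩
    have hL := (bl (-1) p hp).2.1
    rw [← h.id p hL] at eq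
    exact hm (Or.inl ⟨p, Or.inr hp, (h.iJ (s2 hm) (h.mem (n1 p hL) (n2 p hL)) eq).symm⟩)

end
end Pool.Agent.Lib.MP_efe47c_gt
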