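import Pool.Agent.Lib.MP_efe47c_gt.Main

namespace Pool.Agent.Lib.MP_efe47c_gt.OffPointOld
open Pool.Agent.Lib.MP_efe47c_gt
open scoped Manifold ContDiff

/-- Both summands of a contact connected sum decomposition of the standard contact 5-sphere are
standard in the complement of one point. -/
theorem result {M N : Type} [TopologicalSpace M] [ChartedSpace R5 M] [IsManifold (𝓡 5) ∞ M]
    [T2Space M] [CompactSpace M] [TopologicalSpace N] [ChartedSpace R5 N] [IsManifold (𝓡 5) ∞ N]
    [T2Space N] [CompactSpace N] (α : Form R5 M) (β : Form R5 N) (h : IsSum α β std) :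
    OffPoint α std ∧ OffPoint β std := by
  obtain ⟨ε, e0, e1, e₁, j₁, e₂, j₂, h₁, h₂, -⟩ := h
  exact ⟨h₁.main e0 e1, h₂.main e0 e1⟩

end Pool.Agent.Lib.MP_efe47c_gt.OffPointOld
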