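import Pool.Agent.Lib.MP_efe47c_gt.Heis

/-! Radial contactomorphisms of the Heisenberg group: the gauge is changed by an arbitrary
increasing function. -/

namespace Pool.Agent.Lib.MP_efe47c_gt
open Set Filter Topology Complex
open scoped ContDiff ComplexConjugate

noncomputable section

def rc (f : ℝ → ℝ) (p : H) : ℝ := (deriv f (Real.log (gau p)))⁻¹

def rL (f : ℝ → ℝ) (p : H) : ℂ :=
  (((f (Real.log (gau p)) - Real.log (gau p)) / 2 : ℝ) : ℂ) + log (ze 1 p) - log (ze (rc f p) p)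

def rad (f : ℝ → ℝ) : H → H :=
  sc (fun q => exp (rL f q / 2)) fun q => Real.exp (rL f q).re * (rc f q * q.2.2)

variable {f g : ℝ → ℝ} {p : H}

theorem nsq_exp (L : ℂ) : normSq (exp (L / 2)) = Real.exp L.re := by
  rw [normSq_eq_norm_sq, norm_exp, ← Real.exp_nat_mul]
  congr 1
  simp; ring

@[simp] theorem rad_zero (f : ℝ → ℝ) : rad f 0 = 0 := by simp [rad, sc]

theorem ze_rad (f : ℝ → ℝ) (c : ℝ) (p : H) :
    ze c (rad f p) = (Real.exp (rL f p).re : ℂ) * ze (c * rc f p) p := by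
  apply Complex.ext
  · rw [ze_re, re_ofReal_mul, ze_re, rad, rho_sc, nsq_exp]
  · rw [ze_im, im_ofReal_mul, ze_im]
    change c * (Real.exp (rL f p).re * (rc f p * p.2.2)) = _
    ring

theorem rc_pos (hf : ∀ s, 0 < deriv f s) (p : H) : 0 < rc f p := inv_pos.2 (hf _)

theorem gau_rad (hf : ∀ s, 0 < deriv f s) (h : p ≠ 0) :
    gau (rad f p) = Real.exp (f (Real.log (gau p))) := by
  have n1 : 0 < ‖ze 1 p‖ := norm_pos_iff.2 (ze_ne one_ne_zero h)
  have n2 : 0 < ‖ze (rc f p) p‖ := norm_pos_iff.2 (ze_ne (rc_pos hf p).ne' h)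
  have e : Real.exp (rL f p).re =
      Real.exp ((f (Real.log (gau p)) - Real.log (gau p)) / 2) * ‖ze 1 p‖ / ‖ze (rc f p) p‖ := by
    simp only [rL, sub_re, add_re, ofReal_re, log_re, Real.exp_sub, Real.exp_add, Real.exp_log n1,
      Real.exp_log n2]
  have e2 : Real.exp ((f (Real.log (gau p)) - Real.log (gau p)) / 2) ^ 2 =
      Real.exp (f (Real.log (gau p))) / gau p := by
    rw [← Real.exp_nat_mul, ← Real.exp_log (gau_pos h), ← Real.exp_sub, Real.log_exp]
    congr 1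
    push_cast; ring
  have g0 := (gau_pos h).ne'
  rw [← nsq_ze, ze_rad, one_mul, map_mul, normSq_ofReal, e, normSq_eq_norm_sq]
  have e3 : ‖ze 1 p‖ ^ 2 = gau p := by rw [← normSq_eq_norm_sq, nsq_ze]
  field_simp
  rw [e2, e3]
  field_simp

theorem rad_ne (hf : ∀ s, 0 < deriv f s) (h : p ≠ 0) : rad f p ≠ 0 := fun e => by
  have := gau_rad hf h
  rw [e, gau_zero] at this
  exact (Real.exp_pos _).ne this

theorem deriv_inv_fun (cf : ContDiff ℝ ∞ f) (cg : ContDiff ℝ ∞ g) (e : ∀ s, g (f s) = s) (s : ℝ) :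
    deriv g (f s) * deriv f s = 1 := by
  have h := (cd_diff cg.contDiffAt).hasDerivAt.comp s (cd_diff cf.contDiffAt).hasDerivAt
  have e' : g ∘ f = id := funext e
  rw [e'] at h
  exact h.unique (hasDerivAt_id s)

theorem rad_rad (cf : ContDiff ℝ ∞ f) (cg : ContDiff ℝ ∞ g) (hf : ∀ s, 0 < deriv f s)
    (e : ∀ s, g (f s) = s) (p : H) : rad g (rad f p) = p := by
  by_cases h : p = 0
  · simp [h]
  have e0 : Real.log (gau (rad f p)) = f (Real.log (gau p)) := by rw [gau_rad hf h, Real.log_exp]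
  have c0 := (rc_pos hf p).ne'
  have e1 : rc g (rad f p) * rc f p = 1 := by
    rw [rc, rc, e0, ← mul_inv, deriv_inv_fun cf cg e, inv_one]
  have e2 : rL g (rad f p) = -rL f p := by
    rw [rL, e0, e, ze_rad, ze_rad, e1, one_mul,
      log_ofReal_mul (Real.exp_pos _) (ze_ne c0 h),
      log_ofReal_mul (Real.exp_pos _) (ze_ne one_ne_zero h), rL]
    push_cast; ring
  have e3 : exp (rL g (rad f p) / 2) * exp (rL f p / 2) = 1 := by
    rw [e2, ← exp_add]; simp [neg_div]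
  refine Prod.ext ?_ (Prod.ext ?_ ?_)
  · change exp (rL g (rad f p) / 2) * (exp (rL f p / 2) * p.1) = p.1
    rw [← mul_assoc, e3, one_mul]
  · change exp (rL g (rad f p) / 2) * (exp (rL f p / 2) * p.2.1) = p.2.1
    rw [← mul_assoc, e3, one_mul]
  · change Real.exp (rL g (rad f p)).re * (rc g (rad f p) *
      (Real.exp (rL f p).re * (rc f p * p.2.2))) = p.2.2
    rw [e2, neg_re, Real.exp_neg]
    have := (Real.exp_pos (rL f p).re).ne'
    field_simp
    linear_combination p.2.2 * e1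

theorem cd_lg (h : p ≠ 0) : ContDiffAt ℝ ∞ (fun q => Real.log (gau q)) p :=
  (cd_gau p).log (gau_pos h).ne'

theorem cd_rc (cf : ContDiff ℝ ∞ f) (hf : ∀ s, 0 < deriv f s) (h : p ≠ 0) :
    ContDiffAt ℝ ∞ (rc f) p :=
  ((cd_deriv cf).contDiffAt.comp p (cd_lg h)).inv (hf _).ne'

theorem cd_clog {X : Type} [NormedAddCommGroup X] [NormedSpace ℝ X] {u : X → ℂ} {x : X}
    (h : ContDiffAt ℝ ∞ u x) (e : u x ∈ slitPlane) : ContDiffAt ℝ ∞ (fun y => log (u y)) x :=
  ((Complex.contDiffAt_log e).restrict_scalars ℝ).comp x h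

theorem cd_rL (cf : ContDiff ℝ ∞ f) (hf : ∀ s, 0 < deriv f s) (h : p ≠ 0) :
    ContDiffAt ℝ ∞ (rL f) p :=
  ((cd_of (((cf.contDiffAt.comp p (cd_lg h)).sub (cd_lg h)).div_const 2)).add
    (cd_clog (cd_ze (c := fun _ => 1) contDiffAt_const) (ze_slit one_ne_zero h))).sub
    (cd_clog (cd_ze (cd_rc cf hf h)) (ze_slit (rc_pos hf p).ne' h))

theorem cd_rad1 (cf : ContDiff ℝ ∞ f) (hf : ∀ s, 0 < deriv f s) (h : p ≠ 0) :
    ContDiffAt ℝ ∞ (fun q => exp (rL f q / 2)) p := ((cd_rL cf hf h).div_const 2).cexp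

theorem cd_rad2 (cf : ContDiff ℝ ∞ f) (hf : ∀ s, 0 < deriv f s) (h : p ≠ 0) :
    ContDiffAt ℝ ∞ (fun q => Real.exp (rL f q).re * (rc f q * q.2.2)) p :=
  (cd_re (cd_rL cf hf h)).exp.mul ((cd_rc cf hf h).mul (cd3 p))

theorem aH_rad (cf : ContDiff ℝ ∞ f) (hf : ∀ s, 0 < deriv f s) (h : p ≠ 0) (v : H) :
    aH (rad f p) (fderiv ℝ (rad f) p v) = normSq (exp (rL f p / 2)) * aH p v := by
  have g0 := (gau_pos h).ne'
  obtain ⟨τ, dτ⟩ : ∃ τ, HasDerivAt (fun s : ℝ => rc f (p + s • v) * (p + s • v).2.2) τ 0 :=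
    ⟨_, (cd_diff ((cd_rc cf hf h).mul (cd3 p))).hasFDerivAt.hasLineDerivAt v⟩
  have dlg := (hd_gau p v).log (by simpa using g0)
  have df : HasDerivAt (fun s : ℝ => f (Real.log (gau (p + s • v))))
      (deriv f (Real.log (gau p)) * _) 0 :=
    HasDerivAt.comp_of_eq (0 : ℝ) (cd_diff cf.contDiffAt).hasDerivAt dlg (by simp)
  have dz : HasDerivAt (fun s : ℝ => ze 1 (p + s • v)) ((rd p v : ℂ) + ((1 * v.2.2 : ℝ) : ℂ) * I)
      0 := (hd_rho p v).ofReal_comp.add (((hd3 p v).const_mul 1).ofReal_comp.mul_const I)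
  have dc : HasDerivAt (fun s : ℝ => ze (rc f (p + s • v)) (p + s • v)) ((rd p v : ℂ) + (τ : ℂ) * I)
      0 := (hd_rho p v).ofReal_comp.add (dτ.ofReal_comp.mul_const I)
  obtain ⟨L, dL, hL⟩ : ∃ L, HasDerivAt (fun s : ℝ => rL f (p + s • v)) L 0 ∧
      L.re * (rc f p * p.2.2) + τ + rho p * L.im = v.2.2 := by
    refine ⟨_, (((df.sub dlg).div_const 2).ofReal_comp.add
      (dz.clog_real (by simpa using ze_slit one_ne_zero h))).sub
      (dc.clog_real (by simpa using ze_slit (rc_pos hf p).ne' h)), ?_⟩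
    have n2 : normSq (ze (rc f p) p) ≠ 0 := fun e =>
      ze_ne (rc_pos hf p).ne' h (normSq_eq_zero.1 e)
    have e1 : deriv f (Real.log (gau p)) = (rc f p)⁻¹ := by rw [rc, inv_inv]
    have c0 := (rc_pos hf p).ne'
    simp only [zero_smul, add_zero, sub_re, sub_im, add_re, add_im, div_re, div_im, mul_re, mul_im,
      ofReal_re, ofReal_im, I_re, I_im, ze_re, ze_im, nsq_ze, e1]
    have n3 : normSq (ze (rc f p) p) = rho p ^ 2 + (rc f p * p.2.2) ^ 2 := by
      simp [normSq_apply]; ring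
    generalize normSq (ze (rc f p) p) = Q at n2 n3 ⊢
    field_simp
    rw [gau, n3]
    ring
  have dT := (hd_re dL).exp.mul dτ
  refine aH_sc (cd_rad1 cf hf h) (cd_rad2 cf hf h) (dL.div_const 2).cexp dT ?_
  simp only [zero_smul, add_zero]
  rw [← mul_assoc (conj _), ← normSq_eq_conj_mul_self, nsq_exp, im_ofReal_mul, ← hL]
  simp; ring

/-- Where `f` is a translation the radial map is a dilation. -/
theorem rad_dil {κ : ℝ} (h : ∀ᶠ s in 𝓝 (Real.log (gau p)), f s = s + κ) :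
    rad f p = sc (fun _ => exp (((κ / 2 : ℝ) : ℂ) / 2)) (fun q => Real.exp (κ / 2) * q.2.2) p := by
  have e1 : rc f p = 1 := by
    rw [rc, EventuallyEq.deriv_eq (f := fun s => s + κ) h]
    simp
  have e2 : rL f p = ((κ / 2 : ℝ) : ℂ) := by
    rw [rL, e1, h.self_of_nhds]
    push_cast; ring
  simp only [rad, sc, e1, e2, ofReal_re, one_mul]

theorem rad_id (h : ∀ᶠ s in 𝓝 (Real.log (gau p)), f s = s) : rad f p = p := by
  rw [rad_dil (κ := 0) (by simpa using h)]
  simp [sc]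

theorem LH_dil (κ : ℝ) (p : H) :
    LH (sc (fun _ => exp (((κ / 2 : ℝ) : ℂ) / 2)) fun q => Real.exp (κ / 2) * q.2.2) p := by
  have c : ∀ (κ : ℝ) (p : H), ContDiffAt ℝ ∞
      (sc (fun _ => exp (((κ / 2 : ℝ) : ℂ) / 2)) fun q => Real.exp (κ / 2) * q.2.2) p :=
    fun κ p => cd_sc contDiffAt_const (contDiffAt_const.mul (cd3 p))
  have i : ∀ (κ : ℝ) (p : H),
      sc (fun _ => exp (((-κ / 2 : ℝ) : ℂ) / 2)) (fun q => Real.exp (-κ / 2) * q.2.2)
      (sc (fun _ => exp (((κ / 2 : ℝ) : ℂ) / 2)) (fun q => Real.exp (κ / 2) * q.2.2) p) = p := by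
    intro κ p
    have e : exp (((-κ / 2 : ℝ) : ℂ) / 2) * exp (((κ / 2 : ℝ) : ℂ) / 2) = 1 := by
      rw [← exp_add]; push_cast; ring_nf; simp
    have e' : Real.exp (-κ / 2) * Real.exp (κ / 2) = 1 := by
      rw [← Real.exp_add]; ring_nf; simp
    simp only [sc, ← mul_assoc, e, e', one_mul]
  refine LD.of_vec (c κ p) (c (-κ) _) (.of_forall (i κ))
    (.of_forall fun q => by have := i (-κ) q; rwa [neg_neg] at this)
    (c := normSq (exp (((κ / 2 : ℝ) : ℂ) / 2))) (by rw [nsq_exp]; exact Real.exp_pos _) fun v => ?_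
  refine aH_sc contDiffAt_const (contDiffAt_const.mul (cd3 p)) (hasDerivAt_const _ _)
    ((hd3 p v).const_mul _) ?_
  rw [nsq_exp]
  simp

theorem LH_rad (cf : ContDiff ℝ ∞ f) (cg : ContDiff ℝ ∞ g) (hf : ∀ s, 0 < deriv f s)
    (e : ∀ s, g (f s) = s) (e' : ∀ s, f (g s) = s) {κ u : ℝ} (hu : 0 < u)
    (hκ : ∀ s < Real.log u, f s = s + κ) (p : H) : LH (rad f) p := by
  have hg : ∀ s, 0 < deriv g s := fun s => by
    have h1 := deriv_inv_fun cf cg e (g s)
    rw [e'] at h1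
    exact (pos_iff_pos_of_mul_pos (h1 ▸ one_pos)).2 (hf _)
  by_cases h : p = 0
  · refine (LH_dil κ p).congr ?_
    have : ∀ᶠ q in 𝓝 p, gau q < u := cont_gau.continuousAt.eventually_lt continuousAt_const
      (by rw [h, gau_zero]; exact hu)
    filter_upwards [this] with q hq
    by_cases h' : q = 0
    · simp [h', sc, Prod.ext_iff]
    · exact rad_dil ((eventually_lt_nhds (Real.log_lt_log (gau_pos h') hq)).mono hκ)
  · exact LD.of_vec (cd_sc (cd_rad1 cf hf h) (cd_rad2 cf hf h))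
      (cd_sc (cd_rad1 cg hg (rad_ne hf h)) (cd_rad2 cg hg (rad_ne hf h)))
      (.of_forall (rad_rad cf cg hf e)) (.of_forall (rad_rad cg cf hg e'))
      (by rw [nsq_exp]; exact Real.exp_pos _) (aH_rad cf hf h)

/-- The family of radial stretchings that is used. -/
theorem exists_rad {u₁ u₂ T : ℝ} (h1 : 0 < u₁) (h2 : u₁ < u₂) (hT : 0 ≤ T) (κ : ℝ) :
    ∃ R : H ≃ H, (∀ p, LH R p) ∧ (∀ p, gau p ≤ u₁ → gau (R p) = Real.exp κ * gau p) ∧
      (∀ p, u₂ ≤ gau p → gau (R p) = Real.exp (κ + T) * gau p) ∧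
      (κ = 0 → ∀ p, gau p < u₁ → R p = p) ∧ (κ + T = 0 → ∀ p, u₂ < gau p → R p = p) := by
  have d0 : 0 < Real.log u₂ - Real.log u₁ := sub_pos.2 (Real.log_lt_log h1 h2)
  set χ : ℝ → ℝ := fun s => Real.smoothTransition ((s - Real.log u₁) /
    (Real.log u₂ - Real.log u₁)) with hχ
  have cχ : ContDiff ℝ ∞ χ :=
    Real.smoothTransition.contDiff.comp ((contDiff_id.sub contDiff_const).div_const _)
  have mχ : Monotone χ := Real.smoothTransition.monotone.comp fun a b h =>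
    div_le_div_of_nonneg_right (sub_le_sub_right h _) d0.le
  have χ0 : ∀ s ≤ Real.log u₁, χ s = 0 := fun s hs =>
    Real.smoothTransition.zero_of_nonpos (div_nonpos_of_nonpos_of_nonneg (sub_nonpos.2 hs) d0.le)
  have χ1 : ∀ s, Real.log u₂ ≤ s → χ s = 1 := fun s hs =>
    Real.smoothTransition.one_of_one_le ((one_le_div d0).2 (sub_le_sub_right hs _))
  set f : ℝ → ℝ := fun s => s + (κ + T * χ s) with hf
  have cf : ContDiff ℝ ∞ f := contDiff_id.add (contDiff_const.add (contDiff_const.mul cχ))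
  have df : ∀ s, HasDerivAt f (1 + T * deriv χ s) s := fun s =>
    (hasDerivAt_id s).add (((cd_diff cχ.contDiffAt).hasDerivAt.const_mul T).const_add κ)
  have pf : ∀ s, 0 < deriv f s := fun s => by
    rw [(df s).deriv]
    have := mul_nonneg hT (mχ.deriv_nonneg (x := s))
    linarith
  have mf : StrictMono f := strictMono_of_deriv_pos pf
  have sf : Function.Surjective f := by
    refine cf.continuous.surjective ?_ ?_
    · refine tendsto_atTop_mono (fun s => ?_) (tendsto_atTop_add_const_right _ κ tendsto_id)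
      have := mul_nonneg hT (Real.smoothTransition.nonneg ((s - Real.log u₁) /
        (Real.log u₂ - Real.log u₁)))
      simp only [hf, hχ, id]; linarith
    · refine tendsto_atBot_mono (fun s => ?_) (tendsto_atBot_add_const_right _ (κ + T) tendsto_id)
      have := mul_le_of_le_one_right hT (Real.smoothTransition.le_one ((s - Real.log u₁) /
        (Real.log u₂ - Real.log u₁)))
      simp only [hf, hχ, id]; linarith
  let F : ℝ ≃ₜ ℝ := (mf.orderIsoOfSurjective f sf).toHomeomorph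
  have eF : (F : ℝ → ℝ) = f := rfl
  have cg : ContDiff ℝ ∞ F.symm := F.contDiff_symm_deriv (fun s => (pf s).ne')
    (fun s => (cd_diff cf.contDiffAt).hasDerivAt) cf
  have e : ∀ s, F.symm (f s) = s := F.symm_apply_apply
  have e' : ∀ s, f (F.symm s) = s := F.apply_symm_apply
  have hg : ∀ s, 0 < deriv F.symm s := fun s => by
    have h1 := deriv_inv_fun cf cg e (F.symm s)
    rw [e'] at h1
    exact (pos_iff_pos_of_mul_pos (h1 ▸ one_pos)).2 (pf _)
  have f0 : ∀ s ≤ Real.log u₁, f s = s + κ := fun s hs => by simp [hf, χ0 s hs]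
  have f1 : ∀ s, Real.log u₂ ≤ s → f s = s + (κ + T) := fun s hs => by simp [hf, χ1 s hs]
  refine ⟨⟨rad f, rad F.symm, rad_rad cf cg pf e, rad_rad cg cf hg e'⟩,
    LH_rad cf cg pf e e' h1 (fun s hs => f0 s hs.le), fun p hp => ?_, fun p hp => ?_,
    fun k p hp => ?_, fun k p hp => ?_⟩
  · change gau (rad f p) = _
    by_cases h : p = 0
    · simp [h]
    rw [gau_rad pf h, f0 _ (Real.log_le_log (gau_pos h) hp), Real.exp_add,
      Real.exp_log (gau_pos h), mul_comm]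
  · change gau (rad f p) = _
    have g0 : 0 < gau p := (h1.trans h2).trans_le hp
    have h : p ≠ 0 := fun e => by simp [e] at g0
    rw [gau_rad pf h, f1 _ (Real.log_le_log (h1.trans h2) hp), Real.exp_add,
      Real.exp_log g0, mul_comm]
  · change rad f p = p
    by_cases h : p = 0
    · simp [h]
    exact rad_id ((eventually_lt_nhds (Real.log_lt_log (gau_pos h) hp)).mono fun s hs => by
      rw [f0 s hs.le, k, add_zero])
  · change rad f p = p
    exact rad_id ((eventually_gt_nhds (Real.log_lt_log (h1.trans h2) hp)).mono fun s hs => by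
      rw [f1 s hs.le, k, add_zero])

theorem exists_up {u₁ u₂ : ℝ} (h1 : 0 < u₁) (h2 : u₁ < u₂) (L : ℝ) :
    ∃ R : H ≃ H, (∀ p, LH R p) ∧ (∀ p, gau p < u₁ → R p = p) ∧
      ∀ p, u₂ ≤ gau p → L ≤ gau (R p) := by
  have h3 := h1.trans h2
  obtain ⟨R, r1, -, r3, r4, -⟩ := exists_rad h1 h2 (T := |L| / u₂) (by positivity) 0
  refine ⟨R, r1, r4 rfl, fun p hp => ?_⟩
  rw [r3 p hp, zero_add]
  have a1 := Real.add_one_le_exp (|L| / u₂)
  have a2 : |L| / u₂ * u₂ = |L| := by field_simp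
  have a3 : 0 ≤ |L| / u₂ := by positivity
  nlinarith [le_abs_self L, Real.exp_pos (|L| / u₂)]

theorem exists_down {u₁ u₂ δ : ℝ} (h1 : 0 < u₁) (h2 : u₁ < u₂) (hδ : 0 < δ) :
    ∃ R : H ≃ H, (∀ p, LH R p) ∧ (∀ p, u₂ < gau p → R p = p) ∧
      ∀ p, gau p ≤ u₁ → gau (R p) ≤ δ := by
  obtain ⟨R, r1, r2, -, -, r5⟩ := exists_rad h1 h2 (T := u₁ / δ) (by positivity) (-(u₁ / δ))
  refine ⟨R, r1, r5 (neg_add_cancel _), fun p hp => ?_⟩
  rw [r2 p hp, Real.exp_neg, inv_mul_le_iff₀ (Real.exp_pos _)]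
  have a1 := Real.add_one_le_exp (u₁ / δ)
  have a2 : u₁ / δ * δ = u₁ := by field_simp
  nlinarith

end
end Pool.Agent.Lib.MP_efe47c_gt
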