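import Pool.Agent.Lib.MP_efe47c_gt.Core
import Pool.Agent.Lib.MP_efe47c_gt.Defs

/-! The Cayley transform. -/

namespace Pool.Agent.Lib.MP_efe47c_gt
open Set Filter Topology Metric Function Complex
open scoped ContDiff Manifold ComplexConjugate

noncomputable section

def cu (h : H) : ℂ := (1 + conj (ze 1 h))⁻¹

def k0 (h : H) : C3 := WithLp.toLp 2 ![2 * cu h - 1, 2 * cu h * h.1, 2 * cu h * h.2.1]

def c0 (z : C3) : H := (z 1 / (1 + z 0), z 2 / (1 + z 0), -((1 - z 0) / (1 + z 0)).im)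

def om (p v : C3) : ℝ := inner ℝ (I • p) v

theorem om_eq (p v : C3) :
    om p v = (conj (p 0) * v 0).im + (conj (p 1) * v 1).im + (conj (p 2) * v 2).im := by
  simp only [om, PiLp.inner_apply, Fin.sum_univ_three, Complex.inner, PiLp.smul_apply, smul_eq_mul,
    map_mul, mul_re, mul_im, conj_re, conj_im, I_re, I_im]
  ring

theorem om_map (U : C3 ≃ₗᵢ[ℂ] C3) (p v : C3) : om (U p) (U v) = om p v := by
  simp only [om, ← U.map_smul, real_inner_eq_norm_add_mul_self_sub_norm_mul_self_sub_norm_mul_self_div_two,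
    ← U.map_add, U.norm_map]

theorem nsq3 (z : C3) : ‖z‖ ^ 2 = normSq (z 0) + normSq (z 1) + normSq (z 2) := by
  simp only [EuclideanSpace.norm_sq_eq, Fin.sum_univ_three, normSq_eq_norm_sq]

theorem den_ne (h : H) : 1 + conj (ze 1 h) ≠ 0 := fun e => by
  have := congrArg re e
  simp at this
  linarith [rho_nn h]

theorem den_nsq (h : H) : normSq (1 + conj (ze 1 h)) = (1 + rho h) ^ 2 + h.2.2 ^ 2 := by
  simp [normSq_apply]; ring

theorem den_pos (h : H) : 0 < (1 + rho h) ^ 2 + h.2.2 ^ 2 := by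
  have := rho_nn h
  positivity

theorem cu_re (h : H) : (cu h).re = (1 + rho h) / ((1 + rho h) ^ 2 + h.2.2 ^ 2) := by
  rw [cu, inv_re, den_nsq]; simp

theorem cu_im (h : H) : (cu h).im = h.2.2 / ((1 + rho h) ^ 2 + h.2.2 ^ 2) := by
  rw [cu, inv_im, den_nsq]; simp

theorem cu_nsq (h : H) : normSq (cu h) = ((1 + rho h) ^ 2 + h.2.2 ^ 2)⁻¹ := by
  rw [cu, normSq_inv, den_nsq]

theorem cu_ne (h : H) : cu h ≠ 0 := inv_ne_zero (den_ne h)

@[simp] theorem k0_0 (h : H) : k0 h 0 = 2 * cu h - 1 := rfl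
@[simp] theorem k0_1 (h : H) : k0 h 1 = 2 * cu h * h.1 := rfl
@[simp] theorem k0_2 (h : H) : k0 h 2 = 2 * cu h * h.2.1 := rfl

theorem norm_k0 (h : H) : ‖k0 h‖ = 1 := by
  rw [← sq_eq_sq₀ (norm_nonneg _) zero_le_one, nsq3, k0_0, k0_1, k0_2, normSq_sub,
    map_mul normSq _ h.1, map_mul normSq _ h.2.1]
  have e : normSq (2 * cu h) = 4 * normSq (cu h) := by rw [map_mul]; norm_num [normSq_apply]
  have e1 : (2 * cu h * conj 1).re = 2 * (cu h).re := by simp
  have e2 : normSq h.2.1 = rho h - normSq h.1 := by simp [rho]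
  have := (den_pos h).ne'
  rw [e, e1, e2, cu_re, cu_nsq, normSq_one]
  field_simp
  ring

theorem c0_k0 (h : H) : c0 (k0 h) = h := by
  have := cu_ne h
  have e : 1 + k0 h 0 = 2 * cu h := by rw [k0_0]; ring
  refine Prod.ext ?_ (Prod.ext ?_ ?_)
  · change k0 h 1 / (1 + k0 h 0) = _
    rw [e, k0_1]; field_simp
  · change k0 h 2 / (1 + k0 h 0) = _
    rw [e, k0_2]; field_simp
  · change -((1 - k0 h 0) / (1 + k0 h 0)).im = _
    have e1 : (1 - k0 h 0) / (1 + k0 h 0) = conj (ze 1 h) := by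
      have := den_ne h
      rw [e, k0_0, cu]; field_simp; ring
    rw [e1]; simp

theorem ze_c0 {z : C3} (hz : ‖z‖ = 1) (h : 1 + z 0 ≠ 0) :
    conj (ze 1 (c0 z)) = (1 - z 0) / (1 + z 0) := by
  have n := nsq3 z
  rw [hz] at n
  have n0 : normSq (1 + z 0) ≠ 0 := fun e => h (normSq_eq_zero.1 e)
  apply Complex.ext
  · rw [conj_re, ze_re, rho, div_re]
    change normSq (z 1 / (1 + z 0)) + normSq (z 2 / (1 + z 0)) = _
    rw [normSq_div, normSq_div]
    field_simp
    simp only [normSq_apply, sub_re, add_re, one_re, sub_im, add_im, one_im] at n ⊢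
    linear_combination -n
  · rw [conj_im, ze_im]
    simp [c0]

theorem k0_c0 {z : C3} (hz : ‖z‖ = 1) (h : 1 + z 0 ≠ 0) : k0 (c0 z) = z := by
  have e : 2 * cu (c0 z) = 1 + z 0 := by
    have : 1 + (1 - z 0) / (1 + z 0) = 2 / (1 + z 0) := by field_simp; ring
    rw [cu, ze_c0 hz h, this]; field_simp
  ext i
  fin_cases i
  · change 2 * cu (c0 z) - 1 = z 0
    rw [e]; ring
  · change 2 * cu (c0 z) * (z 1 / (1 + z 0)) = z 1
    rw [e]; field_simp
  · change 2 * cu (c0 z) * (z 2 / (1 + z 0)) = z 2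
    rw [e]; field_simp

theorem gau_c0 {z : C3} (hz : ‖z‖ = 1) (h : 1 + z 0 ≠ 0) :
    gau (c0 z) = normSq (1 - z 0) / normSq (1 + z 0) := by
  rw [← nsq_ze, ← normSq_conj, ze_c0 hz h, normSq_div]

theorem cd_cu (h : H) : ContDiffAt ℝ ∞ cu h :=
  (contDiffAt_const.add (cd_conj (cd_ze (c := fun _ => 1) contDiffAt_const))).inv (den_ne h)

theorem cd_k0 (h : H) : ContDiffAt ℝ ∞ k0 h := by
  refine contDiffAt_piLp' 2 fun i => ?_
  have := (contDiffAt_const (c := (2 : ℂ))).mul (cd_cu h)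
  fin_cases i
  · exact this.sub contDiffAt_const
  · exact this.mul (cd1 h)
  · exact this.mul (cd2 h)

theorem cd_pr (z : C3) (i : Fin 3) : ContDiffAt ℝ ∞ (fun y : C3 => y i) z := contDiffAt_piLp_apply 2

theorem cd_c0 {z : C3} (h : 1 + z 0 ≠ 0) : ContDiffAt ℝ ∞ c0 z :=
  (cd_div (cd_pr z 1) (contDiffAt_const.add (cd_pr z 0)) h).prodMk
    ((cd_div (cd_pr z 2) (contDiffAt_const.add (cd_pr z 0)) h).prodMk
      (cd_im (cd_div (contDiffAt_const.sub (cd_pr z 0)) (contDiffAt_const.add (cd_pr z 0)) h)).neg)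

theorem om_k0 (h v : H) : om (k0 h) (fderiv ℝ k0 h v) = 2 * normSq (cu h) * aH h v := by
  have dz : HasDerivAt (fun s : ℝ => ze 1 (h + s • v)) ((rd h v : ℂ) + ((1 * v.2.2 : ℝ) : ℂ) * I)
      0 := (hd_rho h v).ofReal_comp.add (((hd3 h v).const_mul 1).ofReal_comp.mul_const I)
  have du : HasDerivAt (fun s : ℝ => cu (h + s • v))
      (-(cu h ^ 2 * ((rd h v : ℂ) - (v.2.2 : ℂ) * I))) 0 := by
    refine (((hd_conj dz).const_add 1).inv (by simpa using den_ne h)).congr_deriv ?_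
    simp [cu, div_eq_mul_inv]; ring
  have dk : HasDerivAt (fun s : ℝ => k0 (h + s • v)) (fderiv ℝ k0 h v) 0 :=
    (cd_diff (cd_k0 h)).hasFDerivAt.hasLineDerivAt v
  have dp : ∀ i, HasDerivAt (fun s : ℝ => k0 (h + s • v) i) (fderiv ℝ k0 h v i) 0 := fun i =>
    ((EuclideanSpace.proj i : C3 →L[ℂ] ℂ).restrictScalars ℝ).hasFDerivAt.comp_hasDerivAt 0 dk
  have e0 := (dp 0).unique ((du.const_mul 2).sub_const 1)
  have e1 := (dp 1).unique ((du.const_mul 2).mul (hd1 h v))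
  have e2 := (dp 2).unique ((du.const_mul 2).mul (hd2 h v))
  have n := (den_pos h).ne'
  have key : 4 * (1 + rho h) * (conj (cu h) * -(cu h ^ 2 * ((rd h v : ℂ) - (v.2.2 : ℂ) * I))).im -
      2 * (-(cu h ^ 2 * ((rd h v : ℂ) - (v.2.2 : ℂ) * I))).im = 2 * normSq (cu h) * v.2.2 := by
    simp only [pow_two, neg_im, neg_re, mul_im, mul_re, sub_re, sub_im, conj_re, conj_im, ofReal_re,
      ofReal_im, I_re, I_im, cu_nsq, cu_re, cu_im]
    rw [← pow_two, ← pow_two]
    field_simp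
    ring
  rw [om_eq, e0, e1, e2, k0_0, k0_1, k0_2]
  generalize -(cu h ^ 2 * ((rd h v : ℂ) - (v.2.2 : ℂ) * I)) = u at key ⊢
  simp only [aH, th, rho, normSq_apply, zero_smul, add_zero, map_mul, map_sub, map_one, mul_im, mul_re,
    add_re, add_im, sub_re, sub_im, conj_re, conj_im, one_re, one_im, re_ofNat, im_ofNat,
    map_ofNat] at key ⊢
  linear_combination key

/-- The standard form as a plain function. -/
def aS (p : S5) (v : R5) : ℝ := om p (D R5 C3 ((↑) : S5 → C3) p v)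

theorem std_eq (p : S5) (v : R5) : std p v = aS p v := rfl

variable (U : C3 ≃ₗᵢ[ℂ] C3)

def kap (h : H) : S5 := ⟨U.symm (k0 h), by simp [norm_k0]⟩

def cay (p : S5) : H := c0 (U p)

def pole : S5 := ⟨U.symm (WithLp.toLp 2 ![-1, 0, 0]), by
  rw [mem_sphere_zero_iff_norm, U.symm.norm_map, ← sq_eq_sq₀ (norm_nonneg _) zero_le_one, nsq3]
  simp⟩

theorem norm_U (p : S5) : ‖U p‖ = 1 := by rw [U.norm_map]; exact norm_eq_of_mem_sphere p

variable {U}

theorem pole_iff {p : S5} : p ≠ pole U ↔ 1 + U p 0 ≠ 0 := by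
  refine not_congr ⟨fun e => by simp [e, pole], fun e => Subtype.ext ?_⟩
  have n := nsq3 (U p)
  have e0 : U p 0 = -1 := by linear_combination e
  rw [norm_U, e0] at n
  simp only [one_pow, normSq_neg, normSq_one] at n
  have a1 := normSq_nonneg (U p 1)
  have a2 := normSq_nonneg (U p 2)
  change (p : C3) = U.symm _
  rw [eq_comm, U.symm_apply_eq]
  ext i
  fin_cases i
  · exact e0.symm
  · exact (normSq_eq_zero.1 (by linarith : normSq (U p 1) = 0)).symm
  · exact (normSq_eq_zero.1 (by linarith : normSq (U p 2) = 0)).symm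

theorem cay_kap (h : H) : cay U (kap U h) = h := by simp [cay, kap, c0_k0]

theorem kap_cay {p : S5} (h : p ≠ pole U) : kap U (cay U p) = p :=
  Subtype.ext (by simp [cay, kap, k0_c0 (norm_U U p) (pole_iff.1 h)])

theorem kap_ne (h : H) : kap U h ≠ pole U := pole_iff.2 (by simp [kap, cu_ne])

theorem cd_U (U : C3 ≃ₗᵢ[ℂ] C3) (z : C3) : ContDiffAt ℝ ∞ U z :=
  ((U : C3 →L[ℂ] C3).restrictScalars ℝ).contDiff.contDiffAt

theorem sm_val (p : S5) : Sm R5 C3 ((↑) : S5 → C3) p := contMDiff_coe_sphere p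

theorem LD_kap (h : H) : LD aH aS (kap U) h := by
  have c : ContDiff ℝ ∞ fun h => U.symm (k0 h) :=
    contDiff_iff_contDiffAt.2 fun h => (cd_U U.symm _).comp h (cd_k0 h)
  have s : Sm H R5 (kap U) h := ContMDiff.codRestrict_sphere (n := 5) c.contMDiff _ h
  refine ⟨s, ⟨cay U, ?_, .of_forall cay_kap,
    (eventually_ne_nhds (kap_ne h)).mono fun p hp => kap_cay hp⟩, 2 * normSq (cu h),
    mul_pos two_pos (normSq_pos.2 (cu_ne h)), fun v => ?_⟩
  · exact ((cd_c0 (pole_iff.1 (kap_ne h))).comp _ (cd_U U _)).contMDiffAt.comp _ (sm_val _)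
  · rw [aS, ← D_comp (sm_val _) s, D_vec, ← om_k0, ← om_map U.symm (k0 h)]
    exact congrArg (om (U.symm (k0 h))) (fd_line c.contDiffAt
      (((U.symm : C3 →L[ℂ] C3).restrictScalars ℝ).hasFDerivAt.comp_hasDerivAt
      0 ((cd_diff (cd_k0 h)).hasFDerivAt.hasLineDerivAt v)))

theorem LD_cay {p : S5} (h : p ≠ pole U) : LD aS aH (cay U) p :=
  (LD_kap (cay U p)).symm' (.of_forall cay_kap) (kap_cay h)

theorem exists_pole (q : S5) : ∃ U, pole U = q := by
  obtain ⟨b, hb⟩ := Orthonormal.exists_orthonormalBasis_extension_of_card_eq (𝕜 := ℂ) (E := C3)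
    (ι := Fin 3) (by simp) (v := fun _ => -(q : C3)) (s := {0}) ⟨fun _ => by simp, fun i j h =>
      (h (Subtype.ext (i.2.trans j.2.symm))).elim⟩
  refine ⟨b.repr, Subtype.ext ?_⟩
  change b.repr.symm _ = _
  rw [b.repr.symm_apply_eq, ← neg_neg (q : C3), ← hb 0 rfl, map_neg, b.repr_self]
  ext i
  fin_cases i <;> simp

end
end Pool.Agent.Lib.MP_efe47c_gt
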