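import Pool.Agent.Lib.MP_efe47c_gt.Rad

/-! The infinite swindle inside the Heisenberg group. -/

namespace Pool.Agent.Lib.MP_efe47c_gt
open Set Filter Topology
open scoped ContDiff

noncomputable section

def vt (s : ℝ) (p : H) : H := (p.1, p.2.1, p.2.2 + s)

theorem vt_vt (s u : ℝ) (p : H) : vt s (vt u p) = vt (u + s) p := by simp [vt, add_assoc]
@[simp] theorem vt_zero (p : H) : vt 0 p = p := by simp [vt]
@[simp] theorem vt_t (s : ℝ) (p : H) : (vt s p).2.2 = p.2.2 + s := rfl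
@[simp] theorem vt_w (s : ℝ) (p : H) : (vt s p).1 = p.1 := rfl
theorem vt_neg (s : ℝ) (p : H) : vt (-s) (vt s p) = p := by simp [vt_vt]
theorem vt_neg' (s : ℝ) (p : H) : vt s (vt (-s) p) = p := by simp [vt_vt]

theorem LH_vt (s : ℝ) (p : H) : LH (vt s) p :=
  (LH_tr (0, 0, s) p).congr (.of_forall fun q => by simp [vt, tr, th])

def cj (φ : H → H) (s : ℝ) (p : H) : H := vt s (φ (vt (-s) p))

def sl (c : ℝ) (p : H) : ℤ := round (p.2.2 / c)

def fam (φ : H → H) (c : ℝ) (n : ℤ) (p : H) : H :=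
  if n ≤ sl c p then cj φ (c * sl c p) p else p

def Sup (φ : H → H) (L : ℝ) : Prop := ∀ p : H, L ≤ |p.2.2| → φ p = p

variable {L c : ℝ} {n k : ℤ} {p : H}

theorem Sup.cj {φ : H → H} (h : Sup φ L) {s : ℝ} (hp : L ≤ |p.2.2 - s|) : cj φ s p = p := by
  rw [MP_efe47c_gt.cj, h _ (by simpa [sub_eq_add_neg] using hp), vt_neg']

theorem Sup.symm {φ : H ≃ H} (h : Sup φ L) : Sup φ.symm L := fun p hp => by
  rw [Equiv.symm_apply_eq, h p hp]

theorem Sup.lt {φ : H ≃ H} (h : Sup φ L) (hp : |p.2.2| < L) : |(φ p).2.2| < L := by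
  by_contra hq
  have := φ.injective (h _ (not_lt.1 hq))
  rw [this] at hq
  exact hq hp

theorem sl_le (c0 : 0 < c) (p : H) : |p.2.2 - c * sl c p| ≤ c / 2 := by
  have h := abs_sub_round (p.2.2 / c)
  have e : p.2.2 - c * sl c p = c * (p.2.2 / c - round (p.2.2 / c)) := by
    rw [sl]; field_simp
  rw [e, abs_mul, abs_of_pos c0]
  nlinarith

theorem fam_loc {φ : H → H} (h : Sup φ L) (L0 : 0 < L) (hc : 2 * L < c)
    (hp : |p.2.2 - c * k| < c - L) :
    fam φ c n p = if n ≤ k then cj φ (c * k) p else p := by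
  have c0 : 0 < c := by linarith
  by_cases e : sl c p = k
  · rw [fam, e]
  have h1 : (1 : ℝ) ≤ |(sl c p : ℝ) - k| := by
    exact_mod_cast Int.one_le_abs (sub_ne_zero.2 e)
  have h2 : c ≤ |p.2.2 - c * k| + |p.2.2 - c * sl c p| := by
    have h3 : c * ((sl c p : ℝ) - k) = (p.2.2 - c * k) - (p.2.2 - c * sl c p) := by ring
    have h4 := abs_sub (p.2.2 - c * k) (p.2.2 - c * sl c p)
    rw [← h3, abs_mul, abs_of_pos c0] at h4
    nlinarith
  have h5 := sl_le c0 p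
  rw [fam, h.cj (by linarith), h.cj (by linarith), ite_self, ite_self]

theorem fam_vt {φ : H → H} (h : Sup φ L) (L0 : 0 < L) (hc : 2 * L < c) (hp : |p.2.2| < L) :
    fam φ c n (vt (c * k) p) = if n ≤ k then vt (c * k) (φ p) else vt (c * k) p := by
  rw [fam_loc (k := k) h L0 hc (by simp; linarith), cj, vt_neg]

theorem fam_inv {φ : H ≃ H} (h : Sup φ L) (L0 : 0 < L) (hc : 2 * L < c) (p : H) :
    fam φ.symm c n (fam φ c n p) = p := by
  have c0 : 0 < c := by linarith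
  have h5 := sl_le c0 p
  have e : |(fam φ c n p).2.2 - c * sl c p| < c - L := by
    rw [fam]
    split_ifs
    · by_cases h1 : L ≤ |p.2.2 - c * sl c p|
      · rw [h.cj h1]; linarith
      · have := h.lt (p := vt (-(c * sl c p)) p) (by simpa [sub_eq_add_neg] using not_le.1 h1)
        simp only [cj, vt_t, add_sub_cancel_right]
        linarith
    · linarith
  rw [fam_loc h.symm L0 hc e, fam]
  split_ifs
  · simp [cj, vt_neg, vt_neg']
  · rfl

def famE (φ : H ≃ H) (h : Sup φ L) (L0 : 0 < L) (hc : 2 * L < c) (n : ℤ) : H ≃ H :=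
  ⟨fam φ c n, fam φ.symm c n, fam_inv h L0 hc, fam_inv h.symm L0 hc⟩

theorem LH_fam {φ : H → H} (h : Sup φ L) (L0 : 0 < L) (hc : 2 * L < c)
    (hp : ∀ k : ℤ, n ≤ k → LH φ (vt (-(c * k)) p)) : LH (fam φ c n) p := by
  have c0 : 0 < c := by linarith
  have h5 := sl_le c0 p
  have ev : ∀ᶠ q : H in 𝓝 p, |q.2.2 - c * sl c p| < c - L :=
    ContinuousAt.eventually_lt (by fun_prop) continuousAt_const (by linarith)
  by_cases hn : n ≤ sl c p
  · refine ((LH_vt (c * sl c p) _).comp ((hp _ hn).comp (LH_vt _ p))).congr ?_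
    filter_upwards [ev] with q hq
    rw [fam_loc h L0 hc hq, if_pos hn, cj]
  · refine (LD.refl aH p).congr ?_
    filter_upwards [ev] with q hq
    rw [fam_loc h L0 hc hq, if_neg hn]

theorem exists_shear (c : ℝ) : ∃ r : H ≃ H, (∀ p, LH r p) ∧ (∀ p, (r p).1.re = p.1.re) ∧
    (∀ p : H, -1 / 3 < p.1.re → r p = vt c p) ∧ ∀ p : H, p.1.re < -2 / 3 → r p = p := by
  set h : ℝ → ℝ := fun x => c * Real.smoothTransition (3 * x + 2) with hh
  have ch : ContDiff ℝ ∞ h := contDiff_const.mul (Real.smoothTransition.contDiff.comp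
    ((contDiff_const.mul contDiff_id).add contDiff_const))
  have key : ∀ (a : ℝ) (p : H), (∀ᶠ x in 𝓝 p.1.re, h x = a) → shear h p = vt a p := by
    intro a p e
    have e1 : deriv h p.1.re = 0 := by
      rw [EventuallyEq.deriv_eq (f := fun _ => a) e, deriv_const]
    simp [shear, vt, e1, e.self_of_nhds]
  refine ⟨⟨shear h, shear (-h), shear_inv h, fun q => by
    have := shear_inv (-h) q; rwa [neg_neg] at this⟩, LH_shear ch, shear_re h, fun p hp => ?_,
    fun p hp => ?_⟩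
  · exact key c p ((eventually_gt_nhds hp).mono fun x hx => by
      simp only [hh]; rw [Real.smoothTransition.one_of_one_le (by linarith), mul_one])
  · exact (key 0 p ((eventually_lt_nhds hp).mono fun x hx => by
      simp only [hh]; rw [Real.smoothTransition.zero_of_nonpos (by linarith), mul_zero])).trans
      (vt_zero p)

def N1 (L : ℝ) : Set H := {p | -1 / 3 < p.1.re ∧ |p.2.2| < L}
def N2 (L : ℝ) : Set H := {p | p.1.re < -2 / 3 ∧ |p.2.2| < L}

theorem open_N1 (L : ℝ) : IsOpen (N1 L) :=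
  (isOpen_lt (g := fun p : H => p.1.re) continuous_const (by fun_prop)).inter
    (isOpen_lt (f := fun p : H => |p.2.2|) (by fun_prop) continuous_const)

theorem open_N2 (L : ℝ) : IsOpen (N2 L) :=
  (isOpen_lt (f := fun p : H => p.1.re) (by fun_prop) continuous_const).inter
    (isOpen_lt (f := fun p : H => |p.2.2|) (by fun_prop) continuous_const)

theorem swindle_H (φ : H ≃ H) (h : Sup φ L) (L0 : 0 < L) {D₁ D₂ O₁ O₂ : Set H}
    (d1 : D₁ ⊆ N1 L) (d2 : D₂ ⊆ N2 L) (o1 : IsOpen O₁) (o2 : IsOpen O₂)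
    (a1 : ∀ p ∈ D₁, φ p ∈ O₁) (a2 : ∀ p ∈ D₂, φ p ∈ O₂) (b1 : ∀ p, φ p ∈ O₁ → p ∈ N1 L)
    (b2 : ∀ p, φ p ∈ O₂ → p ∈ N2 L) (hφ : ∀ p, p ∉ D₁ → p ∉ D₂ → LH φ p) :
    ∃ K : H ≃ H, (∀ p, φ.symm p ∉ D₂ → LH K p) ∧ ∀ p ∈ N2 L, K (φ p) = p := by
  obtain ⟨c, hc⟩ : ∃ c, 2 * L < c := ⟨2 * L + 1, by linarith⟩
  obtain ⟨r, r1, r2, r3, r4⟩ := exists_shear c
  set K : H ≃ H := ((famE φ h L0 hc 0).symm.trans r).trans (famE φ h L0 hc 1) with hK
  have eK : ∀ p, K p = fam φ c 1 (r (fam φ.symm c 0 p)) := fun _ => rfl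
  have k0 : ∀ k : ℤ, 0 ≤ k → ∀ p : H, |p.2.2| < L →
      fam φ.symm c 0 (vt (c * k) (φ p)) = vt (c * k) p := fun k hk p hp => by
    rw [fam_vt h.symm L0 hc (h.lt hp), if_pos hk, φ.symm_apply_apply]
  have kA : ∀ k : ℤ, 0 ≤ k → ∀ p ∈ N1 L, K (vt (c * k) (φ p)) = vt c (vt (c * k) (φ p)) := by
    intro k hk p hp
    have e : c * k + c = c * ((k + 1 : ℤ) : ℝ) := by push_cast; ring
    rw [eK, k0 k hk p hp.2, r3 (vt (c * k) p) hp.1, vt_vt, vt_vt, e, fam_vt h L0 hc hp.2, if_pos (by omega)]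
  have kB : ∀ k : ℤ, 0 ≤ k → ∀ p ∈ N2 L,
      K (vt (c * k) (φ p)) = if 1 ≤ k then vt (c * k) (φ p) else vt (c * k) p := by
    intro k hk p hp
    rw [eK, k0 k hk p hp.2, r4 (vt (c * k) p) hp.1, fam_vt h L0 hc hp.2]
  refine ⟨K, fun p hp => ?_, fun p hp => by simpa using kB 0 le_rfl p hp⟩
  obtain ⟨q, rfl⟩ : ∃ q, fam φ c 0 q = p := (famE φ h L0 hc 0).surjective p
  have ev : ∀ (s : ℝ) {O : Set H} {x : H}, IsOpen O → vt (-s) x ∈ O →
      ∀ᶠ y in 𝓝 x, vt (-s) y ∈ O := fun s O x o hx => (LH_vt _ _).cont.eventually (o.mem_nhds hx)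
  have e0 : ∀ k : ℤ, 0 ≤ k → |(vt (-(c * k)) q).2.2| < L →
      vt (-(c * k)) (fam φ c 0 q) = φ (vt (-(c * k)) q) := fun k hk hq => by
    have := fam_vt (n := 0) (k := k) h L0 hc hq
    rw [vt_neg', if_pos hk] at this
    rw [this, vt_neg]
  by_cases c1 : ∃ k : ℤ, 0 ≤ k ∧ vt (-(c * k)) q ∈ D₁
  · obtain ⟨k, hk, hq⟩ := c1
    refine (LH_vt c _).congr ?_
    filter_upwards [ev (c * k) o1 (e0 k hk (d1 hq).2 ▸ a1 _ hq)] with y hy
    have := kA k hk _ (b1 (φ.symm (vt (-(c * k)) y)) (by simpa using hy))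
    simpa only [φ.apply_symm_apply, vt_neg'] using this
  by_cases c2 : ∃ k : ℤ, 0 ≤ k ∧ vt (-(c * k)) q ∈ D₂
  · obtain ⟨k, hk, hq⟩ := c2
    have k1 : 1 ≤ k := by
      by_contra k1
      obtain rfl : k = 0 := by omega
      have := e0 0 hk (d2 hq).2
      simp only [Int.cast_zero, mul_zero, neg_zero, vt_zero] at this hq
      rw [this, φ.symm_apply_apply] at hp
      exact hp hq
    refine (LD.refl aH _).congr ?_
    filter_upwards [ev (c * k) o2 (e0 k hk (d2 hq).2 ▸ a2 _ hq)] with y hy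
    have := kB k hk _ (b2 (φ.symm (vt (-(c * k)) y)) (by simpa using hy))
    simpa only [φ.apply_symm_apply, vt_neg', if_pos k1] using this
  push Not at c1 c2
  have l0 : LH (fam φ.symm c 0) (fam φ c 0 q) :=
    (LH_fam h L0 hc fun k hk => hφ _ (c1 k hk) (c2 k hk)).symm (.of_forall (fam_inv h L0 hc))
  have l1 : LH (fam φ c 1) (r q) := by
    refine LH_fam h L0 hc fun k hk => hφ _ (fun m => ?_) fun m => ?_
    · have h1 : -1 / 3 < q.1.re := by simpa [r2] using (d1 m).1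
      rw [r3 q h1, vt_vt] at m
      refine c1 (k - 1) (by omega) ?_
      have e : -(c * ((k - 1 : ℤ) : ℝ)) = c + -(c * k) := by push_cast; ring
      rw [e]
      exact m
    · have h1 : q.1.re < -2 / 3 := by simpa [r2] using (d2 m).1
      rw [r4 q h1] at m
      exact c2 k (by omega) m
  exact l1.comp' (f := fun p => r (fam φ.symm c 0 p)) ((r1 _).comp l0)
    (congrArg r (fam_inv h L0 hc q))

end
end Pool.Agent.Lib.MP_efe47c_gt
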